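import Mathlib
import Pool.Agent.Q298.Sv.Rw

/-!
# Duality `m(d,k) = m(k,d)` for random solid angles (Gaussian form)
-/

set_option autoImplicit false
set_option maxHeartbeats 4000000
open Matrix MeasureTheory Set ProbabilityTheory Q298.Sv
open scoped ENNReal

namespace Q298.Sol

/-- rectangular arrays: `k` vectors of length `d` -/
abbrev RA (k d : ℕ) := Fin k → Fin d → ℝ

/-- standard Gaussian measure on `ℝ^d` -/
noncomputable abbrev gam (d : ℕ) : Measure (Fin d → ℝ) := Measure.pi (fun _ : Fin d => gaussianReal 0 1)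

/-- `k` independent standard Gaussian vectors in `ℝ^d` -/
noncomputable abbrev Gam (k d : ℕ) : Measure (RA k d) := Measure.pi (fun _ : Fin k => gam d)

/-- Gaussian weight -/
noncomputable def gr {k d : ℕ} (A : RA k d) : ℝ≥0∞ := ENNReal.ofReal (Real.exp (-(∑ i, ∑ j, A i j ^ 2) / 2))

theorem gr_prod {k d : ℕ} (A : RA k d) : gr A = ∏ i, gv (A i) := by
  unfold gr gv
  rw [← ENNReal.ofReal_prod_of_nonneg (fun i _ => (Real.exp_pos _).le), ← Real.exp_sum]
  congr 2
  rw [neg_div, Finset.sum_div, ← Finset.sum_neg_distrib]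
  apply Finset.sum_congr rfl
  intro i _
  ring

theorem measurable_gr {k d : ℕ} : Measurable (gr : RA k d → ℝ≥0∞) := by
  apply ENNReal.measurable_ofReal.comp
  apply Continuous.measurable
  fun_prop

theorem Gam_dens (k d : ℕ) : Gam k d =
    (volume : Measure (RA k d)).withDensity (fun A => c1 ^ (d * k) * gr A) := by
  have h : Gam k d = Measure.pi (fun _ : Fin k =>
    (volume : Measure (Fin d → ℝ)).withDensity (fun x => c1 ^ d * gv x)) := by
    unfold Gam gam
    rw [pi_gauss]
  rw [h, pi_withDensity _ _ (fun _ => measurable_gv.const_mul _)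
    (fun _ x => ENNReal.mul_ne_top (ENNReal.pow_ne_top c1_ne_top) (gv_ne_top x))]
  congr 1
  funext A
  rw [gr_prod, Finset.prod_mul_distrib, Finset.prod_const, Finset.card_univ, Fintype.card_fin, pow_mul]

theorem lint_Gam {k d : ℕ} (f : RA k d → ℝ≥0∞) (hf : Measurable f) :
    ∫⁻ A, f A ∂(Gam k d) = c1 ^ (d * k) * ∫⁻ A, gr A * f A := by
  rw [Gam_dens, lintegral_withDensity_eq_lintegral_mul _ (measurable_gr.const_mul _) hf]
  have hm : Measurable fun A : RA k d => gr A * f A := measurable_gr.mul hf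
  rw [← lintegral_const_mul _ hm]
  apply lintegral_congr
  intro A
  rw [Pi.mul_apply, mul_assoc]

theorem map_vecMul {d : ℕ} (G : Matrix (Fin d) (Fin d) ℝ) (hG : G.det ≠ 0) :
    (volume : Measure (Fin d → ℝ)).map (fun x => x ᵥ* G) = ENNReal.ofReal (|G.det|⁻¹) • volume := by
  have hm : Measurable (fun x : Fin d → ℝ => x ᵥ* G) := by
    apply Continuous.measurable
    fun_prop
  apply Measure.ext
  intro s hs
  rw [Measure.map_apply hm hs, Measure.smul_apply, smul_eq_mul]
  have h := lint_vec Gᵀ (by rw [det_transpose]; exact hG) (s.indicator 1) (measurable_one.indicator hs)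
  rw [det_transpose, lintegral_indicator_one hs] at h
  rw [← h]
  simp only [mulVec_transpose]
  rw [← lintegral_indicator_one (hm hs)]
  rfl

theorem sf_gen {α : Type} [MeasurableSpace α] (μ : Measure α) [SigmaFinite μ] (c : ℝ≥0∞) (hc : c ≠ ⊤) :
    SigmaFinite (c • μ) := by
  lift c to NNReal using hc
  exact (inferInstance : SigmaFinite (c • μ))

theorem pi_smul_gen {α : Type} [MeasurableSpace α] (μ : Measure α) [SigmaFinite μ] (c : ℝ≥0∞) (hc : c ≠ ⊤)
    (k : ℕ) : Measure.pi (fun _ : Fin k => c • μ) = c ^ k • Measure.pi (fun _ : Fin k => μ) := by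
  have h : SigmaFinite (c • μ) := sf_gen μ c hc
  apply Measure.pi_eq
  intro s _
  rw [Measure.smul_apply, Measure.pi_pi, smul_eq_mul]
  simp only [Measure.smul_apply, smul_eq_mul]
  rw [Finset.prod_mul_distrib, Finset.prod_const, Finset.card_univ, Fintype.card_fin]

theorem pi_map_gen {α : Type} [MeasurableSpace α] (μ : Measure α) [SigmaFinite μ] (c : ℝ≥0∞) (hc : c ≠ ⊤)
    (f : α → α) (hf : Measurable f) (h : μ.map f = c • μ) (k : ℕ) :
    (Measure.pi (fun _ : Fin k => μ)).map (fun W j => f (W j)) = c ^ k • Measure.pi (fun _ : Fin k => μ) := by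
  have h' : SigmaFinite (μ.map f) := by
    rw [h]
    exact sf_gen μ c hc
  have h2 := Measure.pi_map_pi (ι := Fin k) (μ := fun _ => μ) (f := fun _ => f) (fun _ => hf.aemeasurable)
  rw [h2, h, pi_smul_gen μ c hc]

theorem lint_rows {k d : ℕ} (G : Matrix (Fin d) (Fin d) ℝ) (hG : G.det ≠ 0) (f : RA k d → ℝ≥0∞)
    (hf : Measurable f) :
    ∫⁻ W : RA k d, f (fun j => W j ᵥ* G) = ENNReal.ofReal (|G.det|⁻¹) ^ k * ∫⁻ W, f W := by
  have hm : Measurable (fun x : Fin d → ℝ => x ᵥ* G) := by
    apply Continuous.measurable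
    fun_prop
  have hM : Measurable (fun (W : RA k d) (j : Fin k) => W j ᵥ* G) := by
    rw [measurable_pi_iff]
    intro j
    exact hm.comp (measurable_pi_apply j)
  have h1 : (volume : Measure (RA k d)).map (fun (W : RA k d) (j : Fin k) => W j ᵥ* G) =
      ENNReal.ofReal (|G.det|⁻¹) ^ k • (volume : Measure (RA k d)) :=
    pi_map_gen (volume : Measure (Fin d → ℝ)) _ ENNReal.ofReal_ne_top _ hm (map_vecMul G hG) k
  rw [← lintegral_map hf hM, h1, lintegral_smul_measure, smul_eq_mul]

/-- the density of `V G⁻¹` up to a constant -/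
noncomputable def Dn {k d : ℕ} (W : RA k d) : ℝ≥0∞ :=
  ENNReal.ofReal ((Real.sqrt (1 + (Matrix.of W)ᵀ * Matrix.of W).det ^ (d + k))⁻¹)

theorem measurable_Dn {k d : ℕ} : Measurable (Dn : RA k d → ℝ≥0∞) := by
  apply ENNReal.measurable_ofReal.comp
  apply Measurable.inv
  apply Measurable.pow_const
  apply Measurable.sqrt
  apply Continuous.measurable
  apply Continuous.matrix_det
  have h : Continuous fun A : RA k d => Matrix.of A := continuous_id
  exact continuous_const.add (h.matrix_transpose.matrix_mul h)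

theorem sum_sq_trace {k d : ℕ} (A : Matrix (Fin k) (Fin d) ℝ) : ∑ i, ∑ j, A i j ^ 2 = (Aᵀ * A).trace := by
  rw [trace]
  simp only [diag_apply, mul_apply, transpose_apply]
  rw [Finset.sum_comm]
  apply Finset.sum_congr rfl; intro i _
  apply Finset.sum_congr rfl; intro j _
  ring

theorem inner_int {k d : ℕ} (W : RA k d) :
    ∫⁻ G : MM d, gw G * (ENNReal.ofReal |(Matrix.of G).det| ^ k * gr (fun j => W j ᵥ* Matrix.of G)) =
      Dn W * ∫⁻ A : MM d, gw A * ENNReal.ofReal |(Matrix.of A).det| ^ k := by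
  set P : Matrix (Fin d) (Fin d) ℝ := 1 + (Matrix.of W)ᵀ * Matrix.of W with hP
  have hPd : P.PosDef := by
    rw [hP]
    apply PosDef.add_posSemidef PosDef.one
    have := posSemidef_conjTranspose_mul_self (Matrix.of W)
    rwa [conjTranspose_eq_transpose_of_trivial] at this
  obtain ⟨S, hS, hPS⟩ := pd_root hPd
  have hdet : Real.sqrt P.det = |S.det| := by
    rw [hPS, det_mul, det_transpose, Real.sqrt_mul_self_eq_abs]
  have hSp : 0 < |S.det| := abs_pos.2 hS
  let K : MM d → ℝ≥0∞ := fun A => gw A * (ENNReal.ofReal (|S.det|⁻¹) * ENNReal.ofReal |(Matrix.of A).det|) ^ k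
  have hK : Measurable K := by
    apply measurable_gw.mul
    apply Measurable.pow_const
    apply Measurable.const_mul
    exact ENNReal.measurable_ofReal.comp continuous_det_of.measurable.norm
  have h1 : ∀ G : MM d, gw G * (ENNReal.ofReal |(Matrix.of G).det| ^ k * gr (fun j => W j ᵥ* Matrix.of G)) =
      K (lm S G) := by
    intro G
    have hd : ENNReal.ofReal |(Matrix.of G).det| =
        ENNReal.ofReal (|S.det|⁻¹) * ENNReal.ofReal |(Matrix.of (lm S G)).det| := by
      rw [← ENNReal.ofReal_mul (by positivity), of_lm, det_mul, abs_mul, ← mul_assoc,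
        inv_mul_cancel₀ hSp.ne', one_mul]
    have hg : gw G * gr (fun j => W j ᵥ* Matrix.of G) = gw (lm S G) := by
      unfold gw gr
      rw [← ENNReal.ofReal_mul (Real.exp_pos _).le, ← Real.exp_add]
      congr 2
      have e1 : ∑ i, ∑ j, G i j ^ 2 = ((Matrix.of G)ᵀ * Matrix.of G).trace := sum_sq_trace (Matrix.of G)
      have e2 : ∑ i, ∑ j, (W i ᵥ* Matrix.of G) j ^ 2 =
          ((Matrix.of W * Matrix.of G)ᵀ * (Matrix.of W * Matrix.of G)).trace := by
        rw [← sum_sq_trace]
        rfl
      have e3 : ∑ i, ∑ j, lm S G i j ^ 2 = ((S * Matrix.of G)ᵀ * (S * Matrix.of G)).trace := by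
        rw [← sum_sq_trace]
        rfl
      rw [e1, e2, e3]
      have e4 : (S * Matrix.of G)ᵀ * (S * Matrix.of G) = (Matrix.of G)ᵀ * Matrix.of G +
          (Matrix.of W * Matrix.of G)ᵀ * (Matrix.of W * Matrix.of G) := by
        have : (S * Matrix.of G)ᵀ * (S * Matrix.of G) = (Matrix.of G)ᵀ * (Sᵀ * S) * Matrix.of G := by
          rw [transpose_mul]; simp only [Matrix.mul_assoc]
        rw [this, ← hPS, hP, Matrix.mul_add, Matrix.add_mul, Matrix.mul_one, transpose_mul]
        simp only [Matrix.mul_assoc]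
      rw [e4, trace_add]
      ring
    show _ = gw (lm S G) * (ENNReal.ofReal (|S.det|⁻¹) * ENNReal.ofReal |(Matrix.of (lm S G)).det|) ^ k
    rw [← hd, ← hg]
    ring
  simp only [h1]
  rw [lint_lm S hS K hK]
  have h2 : ∫⁻ A, K A = ENNReal.ofReal (|S.det|⁻¹) ^ k * ∫⁻ A : MM d, gw A * ENNReal.ofReal |(Matrix.of A).det| ^ k := by
    rw [← lintegral_const_mul]
    · apply lintegral_congr
      intro A
      show gw A * (ENNReal.ofReal (|S.det|⁻¹) * ENNReal.ofReal |(Matrix.of A).det|) ^ k = _
      rw [mul_pow]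
      ring
    · apply measurable_gw.mul
      apply Measurable.pow_const
      exact ENNReal.measurable_ofReal.comp continuous_det_of.measurable.norm
  rw [h2, ← mul_assoc]
  congr 1
  unfold Dn
  rw [← hP, hdet, ← ENNReal.ofReal_pow (by positivity), ← ENNReal.ofReal_mul (by positivity)]
  congr 1
  rw [pow_add, mul_inv, inv_pow]

theorem meas_rows (k d : ℕ) : Measurable fun p : MM d × RA k d => (fun j => p.2 j ᵥ* Matrix.of p.1 : RA k d) := by
  apply Continuous.measurable
  apply continuous_pi
  intro j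
  apply continuous_pi
  intro i
  simp only [vecMul, dotProduct, of_apply]
  fun_prop

/-- the joint weight -/
noncomputable def Jw {k d : ℕ} (G : MM d) (W : RA k d) : ℝ≥0∞ :=
  gw G * (ENNReal.ofReal |(Matrix.of G).det| ^ k * gr (fun j => W j ᵥ* Matrix.of G))

theorem meas_J (k d : ℕ) : Measurable fun p : MM d × RA k d => Jw p.1 p.2 := by
  have h1 : Measurable fun p : MM d × RA k d => gw p.1 := measurable_gw.comp measurable_fst
  have h2 : Measurable fun p : MM d × RA k d => ENNReal.ofReal |(Matrix.of p.1).det| ^ k :=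
    (ENNReal.measurable_ofReal.comp ((continuous_det_of.measurable.norm).comp measurable_fst)).pow_const k
  have h3 : Measurable fun p : MM d × RA k d => gr (fun j => p.2 j ᵥ* Matrix.of p.1) :=
    measurable_gr.comp (meas_rows k d)
  exact h1.mul (h2.mul h3)


end Q298.Sol
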