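import Mathlib
import Pool.Agent.Q298.Sol.D1

/-!
# Duality `m(d,k) = m(k,d)` for random solid angles (Gaussian form)
-/

set_option autoImplicit false
set_option maxHeartbeats 4000000
open Matrix MeasureTheory Set ProbabilityTheory Q298.Sv
open scoped ENNReal

namespace Q298.Sol

theorem meas_J1 {k d : ℕ} (W : RA k d) : Measurable fun G : MM d => Jw G W :=
  (meas_J k d).of_uncurry_right

theorem meas_J2 {k d : ℕ} (G : MM d) : Measurable fun W : RA k d => Jw G W :=
  (meas_J k d).of_uncurry_left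

theorem meas_inv_rows (k d : ℕ) :
    Measurable fun p : MM d × RA k d => (fun j => p.2 j ᵥ* (Matrix.of p.1)⁻¹ : RA k d) := by
  rw [measurable_pi_iff]
  intro j
  rw [measurable_pi_iff]
  intro i
  simp only [vecMul, dotProduct]
  apply Finset.measurable_sum
  intro l _
  have h1 : Measurable fun p : MM d × RA k d => p.2 j l := by fun_prop
  have h2 : Measurable fun p : MM d × RA k d => (Matrix.of p.1)⁻¹ l i := (meas_inv' l i).comp measurable_fst
  exact h1.mul h2

theorem change_var {k d : ℕ} (F : RA k d → ℝ≥0∞) (hF : Measurable F) (G : MM d) (hG : (Matrix.of G).det ≠ 0) :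
    gr G * ∫⁻ V, F (fun j => V j ᵥ* (Matrix.of G)⁻¹) ∂(Gam k d) = c1 ^ (d * k) * ∫⁻ W, F W * Jw G W := by
  have hu : IsUnit (Matrix.of G).det := isUnit_iff_ne_zero.2 hG
  have hFG : Measurable fun V : RA k d => F (fun j => V j ᵥ* (Matrix.of G)⁻¹) :=
    hF.comp ((meas_inv_rows k d).comp (measurable_const.prodMk measurable_id))
  rw [lint_Gam _ hFG]
  have hh : Measurable fun V : RA k d => gr V * F (fun j => V j ᵥ* (Matrix.of G)⁻¹) := measurable_gr.mul hFG
  have h1 := lint_rows (Matrix.of G) hG _ hh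
  have h2 : ∫⁻ V : RA k d, gr V * F (fun j => V j ᵥ* (Matrix.of G)⁻¹) =
      ENNReal.ofReal |(Matrix.of G).det| ^ k * ∫⁻ W : RA k d, gr (fun j => W j ᵥ* Matrix.of G) * F W := by
    have h3 : ∀ W : RA k d, (fun j => (W j ᵥ* Matrix.of G) ᵥ* (Matrix.of G)⁻¹) = W := by
      intro W
      funext j
      rw [vecMul_vecMul, mul_nonsing_inv _ hu, vecMul_one]
    simp only [h3] at h1
    rw [h1, ← mul_assoc, ← mul_pow, ← ENNReal.ofReal_mul (abs_nonneg _), mul_inv_cancel₀ (abs_ne_zero.2 hG),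
        ENNReal.ofReal_one, one_pow, one_mul]
  rw [h2]
  have h4 : ∫⁻ W : RA k d, F W * Jw G W =
      ∫⁻ W : RA k d, (gw G * ENNReal.ofReal |(Matrix.of G).det| ^ k) * (gr (fun j => W j ᵥ* Matrix.of G) * F W) := by
    apply lintegral_congr
    intro W
    unfold Jw
    ring
  have h5 : Measurable fun W : RA k d => gr (fun j => W j ᵥ* Matrix.of G) * F W := by
    have : Measurable fun W : RA k d => gr (fun j => W j ᵥ* Matrix.of G) :=
      measurable_gr.comp ((meas_rows k d).comp (measurable_const.prodMk measurable_id))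
    exact this.mul hF
  rw [h4, lintegral_const_mul _ h5]
  have : gr G = gw G := rfl
  rw [this]
  ring

/-- integration over `G` and `V` of a function of `V G⁻¹` -/
theorem dens (k d : ℕ) : ∃ C : ℝ≥0∞, ∀ F : RA k d → ℝ≥0∞, Measurable F →
    ∫⁻ G, ∫⁻ V, F (fun j => V j ᵥ* (Matrix.of G)⁻¹) ∂(Gam k d) ∂(Gam d d) = C * ∫⁻ W, F W * Dn W := by
  refine ⟨c1 ^ (d * d) * (c1 ^ (d * k) * ∫⁻ A : MM d, gw A * ENNReal.ofReal |(Matrix.of A).det| ^ k), ?_⟩
  intro F hF
  have hJ0 : Measurable fun G : MM d => ∫⁻ V, F (fun j => V j ᵥ* (Matrix.of G)⁻¹) ∂(Gam k d) :=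
    Measurable.lintegral_prod_right' (f := fun p : MM d × RA k d => F (fun j => p.2 j ᵥ* (Matrix.of p.1)⁻¹))
      (hF.comp (meas_inv_rows k d))
  have h4 : ∫⁻ G : MM d, gr G * ∫⁻ V, F (fun j => V j ᵥ* (Matrix.of G)⁻¹) ∂(Gam k d) =
      ∫⁻ G : MM d, c1 ^ (d * k) * ∫⁻ W : RA k d, F W * Jw G W := by
    apply lintegral_congr_ae
    filter_upwards [det_ae (n := d)] with G hG
    exact change_var F hF G hG
  have hm5 : Measurable fun p : MM d × RA k d => F p.2 * Jw p.1 p.2 := (hF.comp measurable_snd).mul (meas_J k d)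
  have hm6 : Measurable fun G : MM d => ∫⁻ W : RA k d, F W * Jw G W :=
    Measurable.lintegral_prod_right' (f := fun p : MM d × RA k d => F p.2 * Jw p.1 p.2) hm5
  have h5 : ∫⁻ G : MM d, c1 ^ (d * k) * ∫⁻ W : RA k d, F W * Jw G W =
      c1 ^ (d * k) * ∫⁻ G : MM d, ∫⁻ W : RA k d, F W * Jw G W := lintegral_const_mul _ hm6
  have h6 : ∫⁻ G : MM d, ∫⁻ W : RA k d, F W * Jw G W = ∫⁻ W : RA k d, ∫⁻ G : MM d, F W * Jw G W :=
    lintegral_lintegral_swap hm5.aemeasurable
  have h7 : ∀ W : RA k d, ∫⁻ G : MM d, F W * Jw G W =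
      F W * Dn W * ∫⁻ A : MM d, gw A * ENNReal.ofReal |(Matrix.of A).det| ^ k := by
    intro W
    rw [lintegral_const_mul _ (meas_J1 W)]
    have := inner_int W
    unfold Jw
    rw [this]
    ring
  rw [lint_Gam _ hJ0, h4, h5, h6]
  simp only [h7]
  have hm8 : Measurable fun W : RA k d => F W * Dn W := hF.mul measurable_Dn
  rw [lintegral_mul_const _ hm8]
  ring

/-- transposition preserves the product measures -/
theorem transp_mp (k d : ℕ) (μ : Measure ℝ) [SigmaFinite μ] :
    MeasurePreserving (fun (W : RA k d) (j : Fin d) (i : Fin k) => W i j)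
      (Measure.pi (fun _ : Fin k => Measure.pi (fun _ : Fin d => μ)))
      (Measure.pi (fun _ : Fin d => Measure.pi (fun _ : Fin k => μ))) := by
  -- uncurrying
  have hunc : ∀ a b : ℕ, (Measure.pi (fun _ : Fin a => Measure.pi (fun _ : Fin b => μ))).map
      (fun (W : RA a b) (p : Fin a × Fin b) => W p.1 p.2) = Measure.pi (fun _ : Fin a × Fin b => μ) := by
    intro a b
    have hm : Measurable (fun (W : RA a b) (p : Fin a × Fin b) => W p.1 p.2) := by fun_prop
    symm
    apply Measure.pi_eq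
    intro s hs
    rw [Measure.map_apply hm (MeasurableSet.univ_pi hs)]
    have : (fun (W : RA a b) (p : Fin a × Fin b) => W p.1 p.2) ⁻¹' (univ.pi s) =
        univ.pi (fun i => univ.pi (fun j => s (i, j))) := by
      ext W
      simp only [mem_preimage, mem_univ_pi, Prod.forall]
    rw [this, Measure.pi_pi]
    simp only [Measure.pi_pi]
    rw [Fintype.prod_prod_type]
  have hcm : ∀ a b : ℕ, Measurable (fun (Z : Fin a × Fin b → ℝ) (i : Fin a) (j : Fin b) => Z (i, j)) := by
    intro a b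
    fun_prop
  have hum : ∀ a b : ℕ, Measurable (fun (W : RA a b) (p : Fin a × Fin b) => W p.1 p.2) := by
    intro a b
    fun_prop
  have hcur : ∀ a b : ℕ, (Measure.pi (fun _ : Fin a × Fin b => μ)).map
      (fun (Z : Fin a × Fin b → ℝ) (i : Fin a) (j : Fin b) => Z (i, j)) =
      Measure.pi (fun _ : Fin a => Measure.pi (fun _ : Fin b => μ)) := by
    intro a b
    rw [← hunc a b, Measure.map_map (hcm a b) (hum a b)]
    have : (fun (Z : Fin a × Fin b → ℝ) (i : Fin a) (j : Fin b) => Z (i, j)) ∘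
        (fun (W : RA a b) (p : Fin a × Fin b) => W p.1 p.2) = id := rfl
    rw [this, Measure.map_id]
  have hsw : (Measure.pi (fun _ : Fin k × Fin d => μ)).map
      (fun (Z : Fin k × Fin d → ℝ) (p : Fin d × Fin k) => Z (p.2, p.1)) = Measure.pi (fun _ : Fin d × Fin k => μ) := by
    have hm : Measurable (fun (Z : Fin k × Fin d → ℝ) (p : Fin d × Fin k) => Z (p.2, p.1)) := by fun_prop
    symm
    apply Measure.pi_eq
    intro s hs
    rw [Measure.map_apply hm (MeasurableSet.univ_pi hs)]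
    have : (fun (Z : Fin k × Fin d → ℝ) (p : Fin d × Fin k) => Z (p.2, p.1)) ⁻¹' (univ.pi s) =
        univ.pi (fun p : Fin k × Fin d => s (p.2, p.1)) := by
      ext W
      simp only [mem_preimage, mem_univ_pi, Prod.forall]
      exact forall_comm
    rw [this, Measure.pi_pi, Fintype.prod_prod_type, Fintype.prod_prod_type, Finset.prod_comm]
  have hsm : Measurable (fun (Z : Fin k × Fin d → ℝ) (p : Fin d × Fin k) => Z (p.2, p.1)) := by fun_prop
  refine ⟨by fun_prop, ?_⟩
  rw [← hcur d k, ← hsw, ← hunc k d, Measure.map_map hsm (hum k d), Measure.map_map (hcm d k) (hsm.comp (hum k d))]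
  rfl

theorem Dn_transp {k d : ℕ} (W : RA k d) : Dn (fun (j : Fin d) (i : Fin k) => W i j) = Dn W := by
  unfold Dn
  have h : Matrix.of (fun (j : Fin d) (i : Fin k) => W i j) = (Matrix.of W)ᵀ := rfl
  rw [h, transpose_transpose, add_comm k d, det_one_add_mul_comm]

/-- the duality -/
theorem dual_int (k d : ℕ) (F : RA k d → ℝ≥0∞) (hF : Measurable F) :
    ∫⁻ G, ∫⁻ V, F (fun j => V j ᵥ* (Matrix.of G)⁻¹) ∂(Gam k d) ∂(Gam d d) =
    ∫⁻ H, ∫⁻ X, F (fun i j => (X j ᵥ* (Matrix.of H)⁻¹) i) ∂(Gam d k) ∂(Gam k k) := by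
  obtain ⟨C, hC⟩ := dens k d
  obtain ⟨C', hC'⟩ := dens d k
  have ht := transp_mp d k (volume : Measure ℝ)
  have hv : ∀ a b : ℕ, Measure.pi (fun _ : Fin a => Measure.pi (fun _ : Fin b => (volume : Measure ℝ))) =
    (volume : Measure (RA a b)) := fun a b => rfl
  rw [hv, hv] at ht
  have hF' : Measurable fun W : RA d k => F (fun i j => W j i) := hF.comp ht.measurable
  have key : ∀ F : RA k d → ℝ≥0∞, Measurable F →
      ∫⁻ W : RA d k, F (fun i j => W j i) * Dn W = ∫⁻ W : RA k d, F W * Dn W := by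
    intro F hF
    have hm : Measurable fun W : RA k d => F W * Dn W := hF.mul measurable_Dn
    rw [← ht.lintegral_comp hm]
    apply lintegral_congr
    intro W
    show F (fun i j => W j i) * Dn W = F (fun i j => W j i) * Dn (fun (i : Fin k) (j : Fin d) => W j i)
    rw [Dn_transp]
  have h1 := hC 1 measurable_one
  have h1' := hC' 1 measurable_one
  have hk1 := key 1 measurable_one
  simp only [Pi.one_apply, lintegral_const, measure_univ, mul_one, one_mul] at h1 h1' hk1
  rw [hk1] at h1'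
  have hCC : C = C' := by
    have hI0 : ∫⁻ W : RA k d, Dn W ≠ 0 := by
      intro h0
      rw [h0, mul_zero] at h1
      exact one_ne_zero h1
    have hIt : ∫⁻ W : RA k d, Dn W ≠ ⊤ := by
      intro h0
      rw [h0] at h1
      have hC0 : C ≠ 0 := by
        intro hc
        rw [hc, zero_mul] at h1
        exact one_ne_zero h1
      rw [ENNReal.mul_top hC0] at h1
      exact ENNReal.one_ne_top h1
    rw [h1'] at h1
    exact ((ENNReal.mul_left_inj hI0 hIt).1 h1).symm
  rw [hC F hF, hC' _ hF', key F hF, hCC]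

/-- Gaussian measure of the positive hull of the rows of `G` -/
noncomputable def ang {d : ℕ} (G : MM d) : ℝ≥0∞ := gam d {v | ∀ i, 0 ≤ (v ᵥ* (Matrix.of G)⁻¹) i}

theorem measurable_coord (d : ℕ) (i : Fin d) :
    Measurable fun p : (Fin d → ℝ) × MM d => (p.1 ᵥ* (Matrix.of p.2)⁻¹) i := by
  simp only [vecMul, dotProduct]
  apply Finset.measurable_sum
  intro l _
  have h1 : Measurable fun p : (Fin d → ℝ) × MM d => p.1 l := by fun_prop
  have h2 : Measurable fun p : (Fin d → ℝ) × MM d => (Matrix.of p.2)⁻¹ l i := (meas_inv' l i).comp measurable_snd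
  exact h1.mul h2

theorem measurableSet_cone (d : ℕ) :
    MeasurableSet {p : (Fin d → ℝ) × MM d | ∀ i, 0 ≤ (p.1 ᵥ* (Matrix.of p.2)⁻¹) i} := by
  have : {p : (Fin d → ℝ) × MM d | ∀ i, 0 ≤ (p.1 ᵥ* (Matrix.of p.2)⁻¹) i} =
    ⋂ i, {p | 0 ≤ (p.1 ᵥ* (Matrix.of p.2)⁻¹) i} := by ext; simp
  rw [this]
  exact MeasurableSet.iInter fun i => measurableSet_le measurable_const (measurable_coord d i)

theorem measurable_ang (d : ℕ) : Measurable (ang : MM d → ℝ≥0∞) := by
  have := measurable_measure_prodMk_right (μ := gam d) (measurableSet_cone d)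
  exact this

theorem pow_ang (k d : ℕ) (G : MM d) :
    ∫⁻ V, {W : RA k d | ∀ j i, 0 ≤ W j i}.indicator 1 (fun j => V j ᵥ* (Matrix.of G)⁻¹) ∂(Gam k d) =
      ang G ^ k := by
  have hmi : ∀ i, Measurable fun v : Fin d → ℝ => (v ᵥ* (Matrix.of G)⁻¹) i := fun i =>
    (measurable_coord d i).comp (measurable_id.prodMk measurable_const)
  have hs : MeasurableSet {v : Fin d → ℝ | ∀ i, 0 ≤ (v ᵥ* (Matrix.of G)⁻¹) i} := by
    have : {v : Fin d → ℝ | ∀ i, 0 ≤ (v ᵥ* (Matrix.of G)⁻¹) i} = ⋂ i, {v | 0 ≤ (v ᵥ* (Matrix.of G)⁻¹) i} := by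
      ext; simp
    rw [this]
    exact MeasurableSet.iInter fun i => measurableSet_le measurable_const (hmi i)
  have h1 : ∀ V : RA k d, {W : RA k d | ∀ j i, 0 ≤ W j i}.indicator (1 : RA k d → ℝ≥0∞)
      (fun j => V j ᵥ* (Matrix.of G)⁻¹) =
      (univ.pi (fun _ : Fin k => {v : Fin d → ℝ | ∀ i, 0 ≤ (v ᵥ* (Matrix.of G)⁻¹) i})).indicator 1 V := by
    intro V
    by_cases h : ∀ j i, 0 ≤ (V j ᵥ* (Matrix.of G)⁻¹) i
    · rw [indicator_of_mem, indicator_of_mem]
      · rfl
      · simpa using h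
      · exact h
    · rw [indicator_of_notMem, indicator_of_notMem]
      · simpa using h
      · exact h
  simp only [h1]
  rw [lintegral_indicator_one (MeasurableSet.univ_pi fun _ => hs), Measure.pi_pi]
  rw [Finset.prod_const, Finset.card_univ, Fintype.card_fin]
  rfl

/-- **duality of moments** -/
theorem dual_moment (k d : ℕ) :
    ∫⁻ G, ang G ^ k ∂(Gam d d) = ∫⁻ H, ang H ^ d ∂(Gam k k) := by
  have hs : MeasurableSet {W : RA k d | ∀ j i, 0 ≤ W j i} := by
    have : {W : RA k d | ∀ j i, 0 ≤ W j i} = ⋂ j, ⋂ i, {W | 0 ≤ W j i} := by ext; simp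
    rw [this]
    refine MeasurableSet.iInter fun j => MeasurableSet.iInter fun i => measurableSet_le measurable_const ?_
    fun_prop
  have h := dual_int k d _ (measurable_one.indicator hs)
  simp only [pow_ang] at h
  rw [h]
  apply lintegral_congr
  intro H
  rw [← pow_ang d k H]
  apply lintegral_congr
  intro X
  by_cases hX : ∀ (j : Fin d) (i : Fin k), 0 ≤ (X j ᵥ* (Matrix.of H)⁻¹) i
  · rw [indicator_of_mem, indicator_of_mem]
    · rfl
    · exact hX
    · exact fun i j => hX j i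
  · rw [indicator_of_notMem, indicator_of_notMem]
    · exact hX
    · intro hc
      exact hX fun j i => hc i j

end Q298.Sol
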