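import Mathlib
import Pool.Agent.Q298.Sol.Dual

set_option autoImplicit false
set_option maxHeartbeats 1000000
open Matrix MeasureTheory Set ProbabilityTheory Q298.Sv Filter
open scoped ENNReal Topology

namespace Q298.Sol

/-- the standard Gaussian measure on the line -/
noncomputable abbrev ga1 : Measure ℝ := gaussianReal 0 1

theorem lint_ga1 (f : ℝ → ℝ≥0∞) (hf : Measurable f) : ∫⁻ x, f x ∂ga1 = c1 * ∫⁻ x, g1 x * f x := by
  have hm : Measurable fun x : ℝ => g1 x * f x := measurable_g1.mul hf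
  unfold ga1
  rw [gauss_eq, lintegral_withDensity_eq_lintegral_mul _ (measurable_g1.const_mul _) hf, ← lintegral_const_mul _ hm]
  apply lintegral_congr
  intro x
  rw [Pi.mul_apply, mul_assoc]

theorem lint_gam {d : ℕ} (f : (Fin d → ℝ) → ℝ≥0∞) (hf : Measurable f) :
    ∫⁻ x, f x ∂(gam d) = c1 ^ d * ∫⁻ x, gv x * f x := by
  have hm : Measurable fun x : Fin d → ℝ => gv x * f x := measurable_gv.mul hf
  unfold gam
  rw [pi_gauss, lintegral_withDensity_eq_lintegral_mul _ (measurable_gv.const_mul _) hf, ← lintegral_const_mul _ hm]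
  apply lintegral_congr
  intro x
  rw [Pi.mul_apply, mul_assoc]

theorem meas_vm {d : ℕ} (O : Matrix (Fin d) (Fin d) ℝ) : Measurable (fun v : Fin d → ℝ => v ᵥ* O) := by
  apply Continuous.measurable
  fun_prop

theorem qn_vm {d : ℕ} {O : Matrix (Fin d) (Fin d) ℝ} (hO : Oᵀ * O = 1) (v : Fin d → ℝ) : qn (v ᵥ* O) = qn v := by
  have h3 : O * Oᵀ = 1 := mul_eq_one_comm.1 hO
  have h : (Oᵀ)ᵀ * Oᵀ = 1 := by rw [transpose_transpose]; exact h3
  have := qn_orth h v
  rwa [mulVec_transpose] at this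

theorem rot_gam {d : ℕ} {O : Matrix (Fin d) (Fin d) ℝ} (hO : Oᵀ * O = 1) :
    MeasurePreserving (fun v : Fin d → ℝ => v ᵥ* O) (gam d) (gam d) := by
  refine ⟨meas_vm O, ?_⟩
  have hdet : |O.det| = 1 := by
    have h1 : O.det * O.det = 1 := by
      have := congrArg Matrix.det hO
      rwa [det_mul, det_transpose, det_one] at this
    have h2 : |O.det| * |O.det| = 1 := by rw [← abs_mul, h1, abs_one]
    nlinarith [abs_nonneg O.det]
  have h0 : O.det ≠ 0 := by
    intro h
    rw [h, abs_zero] at hdet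
    exact zero_ne_one hdet
  have hv := map_vecMul O h0
  rw [hdet, inv_one, ENNReal.ofReal_one, one_smul] at hv
  apply Measure.ext
  intro s hs
  rw [Measure.map_apply (meas_vm O) hs, ← lintegral_indicator_one (meas_vm O hs), ← lintegral_indicator_one hs,
    lint_gam _ (measurable_one.indicator (meas_vm O hs)), lint_gam _ (measurable_one.indicator hs)]
  congr 1
  have hm : Measurable fun x : Fin d → ℝ => gv x * s.indicator 1 x := measurable_gv.mul (measurable_one.indicator hs)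
  have h1 : ∫⁻ x : Fin d → ℝ, gv x * s.indicator 1 x = ∫⁻ x : Fin d → ℝ, gv (x ᵥ* O) * s.indicator 1 (x ᵥ* O) := by
    conv_lhs => rw [← hv]
    rw [lintegral_map hm (meas_vm O)]
  rw [h1]
  apply lintegral_congr
  intro x
  rw [gv_qn, gv_qn, qn_vm hO]
  rfl

/-- rotation of the rows -/
theorem ang_rot {d : ℕ} {O : Matrix (Fin d) (Fin d) ℝ} (hO : Oᵀ * O = 1) (G : MM d) :
    ang (fun i => G i ᵥ* O) = ang G := by
  have h3 : O * Oᵀ = 1 := mul_eq_one_comm.1 hO
  have hT : (Oᵀ)ᵀ * Oᵀ = 1 := by rw [transpose_transpose]; exact h3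
  have hinv : O⁻¹ = Oᵀ := inv_eq_left_inv hO
  have hof : Matrix.of (fun i => G i ᵥ* O) = Matrix.of G * O := rfl
  have hmi : ∀ i, Measurable fun v : Fin d → ℝ => (v ᵥ* (Matrix.of G)⁻¹) i := fun i => by
    have := meas_vm (Matrix.of G)⁻¹
    exact (measurable_pi_apply i).comp this
  have hs : MeasurableSet {v : Fin d → ℝ | ∀ i, 0 ≤ (v ᵥ* (Matrix.of G)⁻¹) i} := by
    have : {v : Fin d → ℝ | ∀ i, 0 ≤ (v ᵥ* (Matrix.of G)⁻¹) i} = ⋂ i, {v | 0 ≤ (v ᵥ* (Matrix.of G)⁻¹) i} := by
      ext; simp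
    rw [this]
    exact MeasurableSet.iInter fun i => measurableSet_le measurable_const (hmi i)
  have h := (rot_gam hT).measure_preimage hs.nullMeasurableSet
  unfold ang
  rw [← h, hof, Matrix.mul_inv_rev, hinv]
  congr 1
  ext v
  simp only [mem_preimage, mem_ofPred_eq, vecMul_vecMul]

/-- `1`-dimensional intervals -/
noncomputable def Gi (ε : ℝ) : ℝ≥0∞ := ga1 {s | |s| < ε}

theorem Gi_set (ε : ℝ) : {s : ℝ | |s| < ε} = Ioo (-ε) ε := by
  ext s
  simp [abs_lt]

theorem Gi_le (ε : ℝ) : Gi ε ≤ c1 * ENNReal.ofReal (2 * ε) := by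
  unfold Gi
  rw [Gi_set, ← lintegral_indicator_one measurableSet_Ioo,
    lint_ga1 _ (measurable_one.indicator measurableSet_Ioo)]
  gcongr
  calc ∫⁻ x, g1 x * (Ioo (-ε) ε).indicator 1 x ≤ ∫⁻ x, (Ioo (-ε) ε).indicator 1 x := by
        apply lintegral_mono
        intro x
        show g1 x * _ ≤ _
        have : g1 x ≤ 1 := by
          rw [g1, ← ENNReal.ofReal_one]
          apply ENNReal.ofReal_le_ofReal
          rw [Real.exp_le_one_iff]
          nlinarith [sq_nonneg x]
        calc g1 x * (Ioo (-ε) ε).indicator 1 x ≤ 1 * (Ioo (-ε) ε).indicator 1 x := by gcongr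
          _ = _ := one_mul _
    _ = ENNReal.ofReal (2 * ε) := by
        rw [lintegral_indicator_one measurableSet_Ioo, Real.volume_Ioo]
        congr 1
        ring

theorem le_Gi (ε : ℝ) : c1 * (ENNReal.ofReal (Real.exp (-ε ^ 2 / 2)) * ENNReal.ofReal (2 * ε)) ≤ Gi ε := by
  unfold Gi
  rw [Gi_set, ← lintegral_indicator_one measurableSet_Ioo,
    lint_ga1 _ (measurable_one.indicator measurableSet_Ioo)]
  gcongr
  have h : ENNReal.ofReal (2 * ε) = ∫⁻ x : ℝ, (Ioo (-ε) ε).indicator 1 x := by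
    rw [lintegral_indicator_one measurableSet_Ioo, Real.volume_Ioo]
    congr 1
    ring
  rw [h, ← lintegral_const_mul _ (measurable_one.indicator measurableSet_Ioo)]
  apply lintegral_mono
  intro x
  show _ * (Ioo (-ε) ε).indicator 1 x ≤ g1 x * (Ioo (-ε) ε).indicator 1 x
  by_cases hx : x ∈ Ioo (-ε) ε
  · rw [indicator_of_mem hx, Pi.one_apply, mul_one, mul_one, g1]
    apply ENNReal.ofReal_le_ofReal
    rw [Real.exp_le_exp]
    obtain ⟨h1, h2⟩ := hx
    nlinarith
  · rw [indicator_of_notMem hx]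
    simp

theorem Gi_mono {a b : ℝ} (h : a ≤ b) : Gi a ≤ Gi b := by
  apply measure_mono
  intro s hs
  exact lt_of_lt_of_le hs h

/-- the half line lemma -/
theorem half (f : ℝ → ℝ≥0∞) (hf : Measurable f) (t : ℝ) (ht : t ≠ 0) :
    2 * ∫⁻ s, {s : ℝ | 0 ≤ s / t}.indicator (fun s => f (s / t)) s ∂ga1 = ∫⁻ s, f (|s| / |t|) ∂ga1 := by
  have hneg : MeasurePreserving (fun s : ℝ => -s) ga1 ga1 := by
    refine ⟨measurable_neg, ?_⟩
    have := gaussianReal_map_neg (μ := 0) (v := 1)
    rw [neg_zero] at this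
    exact this
  have hm1 : Measurable fun s : ℝ => {s : ℝ | 0 ≤ s / t}.indicator (fun s => f (s / t)) s := by
    apply Measurable.indicator (hf.comp (measurable_id.div_const t))
    exact measurableSet_le measurable_const (measurable_id.div_const t)
  have h1 : ∫⁻ s, {s : ℝ | 0 ≤ s / t}.indicator (fun s => f (s / t)) s ∂ga1 =
      ∫⁻ s, {s : ℝ | 0 ≤ s / t}.indicator (fun s => f (s / t)) (-s) ∂ga1 := (hneg.lintegral_comp hm1).symm
  have h0 : ∀ᵐ s ∂ga1, s ≠ 0 := by
    have := nullSingletonClass_gaussianReal (μ := 0) (v := 1) one_ne_zero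
    have : ga1 {0} = 0 := measure_singleton 0
    exact compl_mem_ae_iff.2 this
  have hm2 : Measurable fun s : ℝ => {s : ℝ | 0 ≤ s / t}.indicator (fun s => f (s / t)) (-s) := hm1.comp measurable_neg
  rw [two_mul]
  nth_rewrite 2 [h1]
  rw [← lintegral_add_left hm1]
  apply lintegral_congr_ae
  filter_upwards [h0] with s hs
  show {s : ℝ | 0 ≤ s / t}.indicator (fun s => f (s / t)) s + {s : ℝ | 0 ≤ s / t}.indicator (fun s => f (s / t)) (-s) = _
  have hst : s / t ≠ 0 := div_ne_zero hs ht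
  rcases lt_or_gt_of_ne hst with h | h
  · rw [indicator_of_notMem, indicator_of_mem, zero_add]
    · rw [← abs_div, abs_of_neg h, neg_div]
    · show 0 ≤ -s / t
      rw [neg_div]
      linarith
    · show ¬ 0 ≤ s / t
      linarith
  · rw [indicator_of_mem, indicator_of_notMem, add_zero]
    · rw [← abs_div, abs_of_pos h]
    · show ¬ 0 ≤ -s / t
      rw [neg_div]
      linarith
    · show 0 ≤ s / t
      exact h.le

end Q298.Sol
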