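import Mathlib
import Pool.Agent.Q298.Sol.A1

set_option autoImplicit false
set_option maxHeartbeats 1000000
open Matrix MeasureTheory Set ProbabilityTheory Q298.Sv Filter
open scoped ENNReal Topology

namespace Q298.Sol

theorem mp_cons {α : Type} [MeasurableSpace α] (μ : Measure α) [SigmaFinite μ] (m : ℕ) :
    MeasurePreserving (fun z : α × (Fin m → α) => (Fin.cons z.1 z.2 : Fin (m + 1) → α))
      (μ.prod (Measure.pi fun _ : Fin m => μ)) (Measure.pi fun _ : Fin (m + 1) => μ) := by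
  have h := (measurePreserving_piFinSuccAbove (fun _ : Fin (m + 1) => μ) 0).symm
  convert h using 1
  funext z
  symm
  exact Fin.insertNth_zero' z.1 z.2

theorem lint_cons {α : Type} [MeasurableSpace α] (μ : Measure α) [SigmaFinite μ] (m : ℕ)
    (f : (Fin (m + 1) → α) → ℝ≥0∞) (hf : Measurable f) :
    ∫⁻ x, f x ∂(Measure.pi fun _ : Fin (m + 1) => μ) =
      ∫⁻ b, ∫⁻ a, f (Fin.cons a b) ∂μ ∂(Measure.pi fun _ : Fin m => μ) := by
  have h := mp_cons μ m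
  rw [← h.lintegral_comp hf]
  exact lintegral_prod_symm (fun z : α × (Fin m → α) => f (Fin.cons z.1 z.2)) (hf.comp h.measurable).aemeasurable

/-- block triangular arrays -/
def Mt {m : ℕ} (t : ℝ) (p : Fin m → ℝ) (h : MM m) : MM (m + 1) :=
  Fin.cons (Fin.cons t p : Fin (m + 1) → ℝ) (fun i => (Fin.cons 0 (h i) : Fin (m + 1) → ℝ))

theorem cons_vecMul {m : ℕ} (c0 : ℝ) (c' : Fin m → ℝ) (t : ℝ) (p : Fin m → ℝ) (h : MM m) :
    (Fin.cons c0 c' : Fin (m + 1) → ℝ) ᵥ* Matrix.of (Mt t p h) =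
      (Fin.cons (c0 * t) (c0 • p + c' ᵥ* Matrix.of h) : Fin (m + 1) → ℝ) := by
  funext j
  simp only [vecMul, dotProduct, of_apply, Mt]
  rw [Fin.sum_univ_succ]
  refine Fin.cases ?_ (fun j => ?_) j
  · simp
  · simp [vecMul, dotProduct]

theorem det_Mt {m : ℕ} (t : ℝ) (ht : t ≠ 0) (p : Fin m → ℝ) (h : MM m) (hh : (Matrix.of h).det ≠ 0) :
    (Matrix.of (Mt t p h)).det ≠ 0 := by
  intro h0
  obtain ⟨v, hv0, hv⟩ := exists_vecMul_eq_zero_iff.2 h0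
  rw [← Fin.cons_self_tail v, cons_vecMul] at hv
  have h1 : v 0 * t = 0 := by
    have := congrFun hv 0
    simpa using this
  have h2 : v 0 = 0 := by
    rcases mul_eq_zero.1 h1 with h | h
    · exact h
    · exact absurd h ht
  have h3 : Fin.tail v ᵥ* Matrix.of h = 0 := by
    funext j
    have := congrFun hv j.succ
    simpa [h2] using this
  apply hh
  apply exists_vecMul_eq_zero_iff.1
  refine ⟨Fin.tail v, ?_, h3⟩
  intro h4
  apply hv0
  rw [← Fin.cons_self_tail v, h2, h4]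
  funext j
  refine Fin.cases ?_ (fun j => ?_) j <;> simp

theorem det_of_Mt {m : ℕ} (t : ℝ) (p : Fin m → ℝ) (h : MM m) (hh : (Matrix.of (Mt t p h)).det ≠ 0) :
    (Matrix.of h).det ≠ 0 := by
  intro h0
  obtain ⟨v, hv0, hv⟩ := exists_vecMul_eq_zero_iff.2 h0
  apply hh
  apply exists_vecMul_eq_zero_iff.1
  refine ⟨Fin.cons 0 v, ?_, ?_⟩
  · intro h1
    apply hv0
    funext j
    have := congrFun h1 j.succ
    simpa using this
  · rw [cons_vecMul, hv]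
    funext j
    refine Fin.cases ?_ (fun j => ?_) j <;> simp

theorem inv_Mt {m : ℕ} (t : ℝ) (ht : t ≠ 0) (p : Fin m → ℝ) (h : MM m) (hh : (Matrix.of h).det ≠ 0)
    (s : ℝ) (x : Fin m → ℝ) :
    (Fin.cons s x : Fin (m + 1) → ℝ) ᵥ* (Matrix.of (Mt t p h))⁻¹ =
      (Fin.cons (s / t) ((x - (s / t) • p) ᵥ* (Matrix.of h)⁻¹) : Fin (m + 1) → ℝ) := by
  have hM := det_Mt t ht p h hh
  have hu : IsUnit (Matrix.of (Mt t p h)).det := isUnit_iff_ne_zero.2 hM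
  have hu' : IsUnit (Matrix.of h).det := isUnit_iff_ne_zero.2 hh
  have h1 : (Fin.cons s x : Fin (m + 1) → ℝ) =
      (Fin.cons (s / t) ((x - (s / t) • p) ᵥ* (Matrix.of h)⁻¹) : Fin (m + 1) → ℝ) ᵥ* Matrix.of (Mt t p h) := by
    rw [cons_vecMul, vecMul_vecMul, nonsing_inv_mul _ hu', vecMul_one, div_mul_cancel₀ _ ht]
    congr 1
    funext i
    simp
  conv_lhs => rw [h1]
  rw [vecMul_vecMul, mul_nonsing_inv _ hu, vecMul_one]

/-- the Gaussian measure on pairs -/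
noncomputable abbrev P2 (m : ℕ) : Measure (ℝ × (Fin m → ℝ)) := ga1.prod (gam m)

/-- the doubled angle -/
noncomputable def rho {m : ℕ} (K : Matrix (Fin m) (Fin m) ℝ) (p : Fin m → ℝ) (r : ℝ) : ℝ≥0∞ :=
  P2 m {z | ∀ i, |z.1| / r * (p ᵥ* K) i ≤ (z.2 ᵥ* K) i}

theorem meas_rs {m : ℕ} (K : Matrix (Fin m) (Fin m) ℝ) (p : Fin m → ℝ) (r : ℝ) :
    MeasurableSet {z : ℝ × (Fin m → ℝ) | ∀ i, |z.1| / r * (p ᵥ* K) i ≤ (z.2 ᵥ* K) i} := by
  have : {z : ℝ × (Fin m → ℝ) | ∀ i, |z.1| / r * (p ᵥ* K) i ≤ (z.2 ᵥ* K) i} =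
    ⋂ i, {z | |z.1| / r * (p ᵥ* K) i ≤ (z.2 ᵥ* K) i} := by ext; simp
  rw [this]
  refine MeasurableSet.iInter fun i => measurableSet_le ?_ ?_
  · exact ((measurable_fst.norm).div_const r).mul_const _
  · exact (measurable_pi_apply i).comp ((meas_vm K).comp measurable_snd)

theorem ang_Mt {m : ℕ} (t : ℝ) (ht : t ≠ 0) (p : Fin m → ℝ) (h : MM m) (hh : (Matrix.of h).det ≠ 0) :
    2 * ang (Mt t p h) = rho (Matrix.of h)⁻¹ p |t| := by
  set K := (Matrix.of h)⁻¹ with hK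
  have hmi : ∀ i, Measurable fun v : Fin (m + 1) → ℝ => (v ᵥ* (Matrix.of (Mt t p h))⁻¹) i := fun i =>
    (measurable_pi_apply i).comp (meas_vm (Matrix.of (Mt t p h))⁻¹)
  have hs : MeasurableSet {v : Fin (m + 1) → ℝ | ∀ i, 0 ≤ (v ᵥ* (Matrix.of (Mt t p h))⁻¹) i} := by
    have : {v : Fin (m + 1) → ℝ | ∀ i, 0 ≤ (v ᵥ* (Matrix.of (Mt t p h))⁻¹) i} =
      ⋂ i, {v | 0 ≤ (v ᵥ* (Matrix.of (Mt t p h))⁻¹) i} := by
      ext; simp
    rw [this]
    exact MeasurableSet.iInter fun i => measurableSet_le measurable_const (hmi i)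
  unfold ang gam
  rw [← lintegral_indicator_one hs, lint_cons ga1 m _ (measurable_one.indicator hs)]
  unfold rho P2
  rw [← lintegral_indicator_one (meas_rs K p |t|),
    lintegral_prod_symm _ (measurable_one.indicator (meas_rs K p |t|)).aemeasurable]
  rw [← lintegral_const_mul]
  swap
  · have h1 := (measurable_one.indicator hs : Measurable ({v : Fin (m + 1) → ℝ |
      ∀ i, 0 ≤ (v ᵥ* (Matrix.of (Mt t p h))⁻¹) i}.indicator (1 : (Fin (m + 1) → ℝ) → ℝ≥0∞)))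
    have h2 := h1.comp (mp_cons ga1 m).measurable
    exact h2.lintegral_prod_left'
  apply lintegral_congr
  intro x
  have hmf : Measurable ({u : ℝ | ∀ i, u * (p ᵥ* K) i ≤ (x ᵥ* K) i}.indicator (1 : ℝ → ℝ≥0∞)) := by
    apply measurable_one.indicator
    have : {u : ℝ | ∀ i, u * (p ᵥ* K) i ≤ (x ᵥ* K) i} = ⋂ i, {u : ℝ | u * (p ᵥ* K) i ≤ (x ᵥ* K) i} := by
      ext; simp
    rw [this]
    exact MeasurableSet.iInter fun i => measurableSet_le (measurable_id.mul_const _) measurable_const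
  have hf := half _ hmf t ht
  have e1 : ∀ s : ℝ, {v : Fin (m + 1) → ℝ | ∀ i, 0 ≤ (v ᵥ* (Matrix.of (Mt t p h))⁻¹) i}.indicator
      (1 : (Fin (m + 1) → ℝ) → ℝ≥0∞) (Fin.cons s x) =
      {s : ℝ | 0 ≤ s / t}.indicator (fun s => {u : ℝ | ∀ i, u * (p ᵥ* K) i ≤ (x ᵥ* K) i}.indicator
        (1 : ℝ → ℝ≥0∞) (s / t)) s := by
    intro s
    have key : (Fin.cons s x : Fin (m + 1) → ℝ) ∈ {v : Fin (m + 1) → ℝ | ∀ i, 0 ≤ (v ᵥ* (Matrix.of (Mt t p h))⁻¹) i} ↔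
        0 ≤ s / t ∧ ∀ i, s / t * (p ᵥ* K) i ≤ (x ᵥ* K) i := by
      show (∀ i, 0 ≤ ((Fin.cons s x : Fin (m + 1) → ℝ) ᵥ* (Matrix.of (Mt t p h))⁻¹) i) ↔ _
      rw [inv_Mt t ht p h hh s x, Fin.forall_fin_succ]
      simp only [Fin.cons_zero, Fin.cons_succ]
      rw [sub_vecMul, smul_vecMul]
      simp only [Pi.sub_apply, Pi.smul_apply, smul_eq_mul, sub_nonneg]
      rfl
    by_cases h1 : 0 ≤ s / t
    · by_cases h2 : ∀ i, s / t * (p ᵥ* K) i ≤ (x ᵥ* K) i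
      · rw [indicator_of_mem (key.2 ⟨h1, h2⟩), indicator_of_mem (show s ∈ {s : ℝ | 0 ≤ s / t} from h1),
          indicator_of_mem (show s / t ∈ {u : ℝ | ∀ i, u * (p ᵥ* K) i ≤ (x ᵥ* K) i} from h2)]
        rfl
      · rw [indicator_of_notMem (fun hc => h2 (key.1 hc).2), indicator_of_mem (show s ∈ {s : ℝ | 0 ≤ s / t} from h1),
          indicator_of_notMem (show s / t ∉ {u : ℝ | ∀ i, u * (p ᵥ* K) i ≤ (x ᵥ* K) i} from h2)]
    · rw [indicator_of_notMem (fun hc => h1 (key.1 hc).1), indicator_of_notMem (show s ∉ {s : ℝ | 0 ≤ s / t} from h1)]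
  simp only [e1]
  rw [hf]
  rfl

end Q298.Sol
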