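import Mathlib
import Pool.Agent.Q298.Sol.A2

set_option autoImplicit false
set_option maxHeartbeats 1000000
open Matrix MeasureTheory Set ProbabilityTheory Q298.Sv Filter
open scoped ENNReal Topology

namespace Q298.Sol

/-- the complementary probability -/
noncomputable def Qc {m : ℕ} (K : Matrix (Fin m) (Fin m) ℝ) (p : Fin m → ℝ) (r : ℝ) : ℝ≥0∞ :=
  P2 m {z | ∃ i, (z.2 ᵥ* K) i < |z.1| / r * (p ᵥ* K) i}

theorem rho_eq {m : ℕ} (K : Matrix (Fin m) (Fin m) ℝ) (p : Fin m → ℝ) (r : ℝ) :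
    rho K p r = 1 - Qc K p r := by
  have h : {z : ℝ × (Fin m → ℝ) | ∃ i, (z.2 ᵥ* K) i < |z.1| / r * (p ᵥ* K) i} =
      {z : ℝ × (Fin m → ℝ) | ∀ i, |z.1| / r * (p ᵥ* K) i ≤ (z.2 ᵥ* K) i}ᶜ := by
    ext z
    simp
  unfold Qc rho
  rw [h, prob_compl_eq_one_sub (meas_rs K p r), ENNReal.sub_sub_cancel ENNReal.one_ne_top prob_le_one]

/-- a constant -/
noncomputable def c0 : ℝ≥0∞ := ga1 (Iio (-1))

theorem c0_pos : 0 < c0 := by
  rw [pos_iff_ne_zero]
  unfold c0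
  intro h
  rw [← lintegral_indicator_one measurableSet_Iio, lint_ga1 _ (measurable_one.indicator measurableSet_Iio)] at h
  rcases mul_eq_zero.1 h with h | h
  · exact c1_ne_zero h
  · have hmm : Measurable fun x : ℝ => g1 x * (Iio (-1 : ℝ)).indicator (1 : ℝ → ℝ≥0∞) x :=
      measurable_g1.mul (measurable_one.indicator measurableSet_Iio)
    rw [lintegral_eq_zero_iff hmm] at h
    have h2 : ∀ᵐ x : ℝ, x ∉ Iio (-1 : ℝ) := by
      filter_upwards [h] with x hx hx2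
      rw [indicator_of_mem hx2, Pi.one_apply, mul_one] at hx
      exact g1_ne_zero x hx
    have h3 : volume (Iio (-1 : ℝ)) = 0 := by
      have := measure_mono_null (s := Iio (-1 : ℝ)) (t := {x | ¬ x ∉ Iio (-1 : ℝ)}) (μ := volume)
        (fun x hx => not_not.2 hx) h2
      exact this
    rw [Real.volume_Iio] at h3
    exact ENNReal.top_ne_zero h3

theorem c0_le : c0 ≤ 1 := prob_le_one

theorem proj_gauss {m : ℕ} (n : Fin (m + 1) → ℝ) (hn : n ≠ 0) :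
    gam (m + 1) {x | x ⬝ᵥ n < -Real.sqrt (qn n)} = c0 := by
  obtain ⟨O, h1, h2⟩ := exists_rot2 n
  have hq := qn_pos hn
  have hsq : 0 < Real.sqrt (qn n) := Real.sqrt_pos.2 hq
  have hs : MeasurableSet {x : Fin (m + 1) → ℝ | x ⬝ᵥ n < -Real.sqrt (qn n)} := by
    apply measurableSet_lt _ measurable_const
    unfold dotProduct
    fun_prop
  have h := (rot_gam h1).measure_preimage hs.nullMeasurableSet
  rw [← h]
  have h3 : (fun v : Fin (m + 1) → ℝ => v ᵥ* O) ⁻¹' {x | x ⬝ᵥ n < -Real.sqrt (qn n)} =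
      (Function.eval 0) ⁻¹' (Iio (-1 : ℝ)) := by
    ext v
    simp only [mem_preimage, mem_ofPred_eq, mem_Iio, Function.eval]
    rw [← dotProduct_mulVec, h2, dotProduct_smul, dotProduct_single, mul_one, smul_eq_mul]
    constructor
    · intro h
      by_contra hc
      nlinarith
    · intro h
      nlinarith
  rw [h3]
  exact (measurePreserving_eval (fun _ : Fin (m + 1) => ga1) 0).measure_preimage measurableSet_Iio.nullMeasurableSet

theorem vm_dot {m : ℕ} (K : Matrix (Fin m) (Fin m) ℝ) (x : Fin m → ℝ) (i : Fin m) :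
    (x ᵥ* K) i = x ⬝ᵥ (fun j => K j i) := rfl

theorem col_ne {m : ℕ} (K : Matrix (Fin m) (Fin m) ℝ) (hK : K.det ≠ 0) (i : Fin m) : (fun j => K j i) ≠ 0 := by
  intro h
  apply hK
  apply det_eq_zero_of_column_eq_zero i
  intro j
  exact congrFun h j

theorem dot_ge {m : ℕ} (p n : Fin m → ℝ) : -(Real.sqrt (1 + qn p) * Real.sqrt (qn n)) ≤ p ⬝ᵥ n := by
  have h1 : (p ⬝ᵥ n) ^ 2 ≤ qn p * qn n := Finset.sum_mul_sq_le_sq_mul_sq _ _ _
  have h2 : |p ⬝ᵥ n| ≤ Real.sqrt (qn p * qn n) := Real.abs_le_sqrt h1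
  rw [Real.sqrt_mul (qn_nonneg p)] at h2
  have h3 : Real.sqrt (qn p) ≤ Real.sqrt (1 + qn p) := Real.sqrt_le_sqrt (by linarith)
  have h4 : Real.sqrt (qn p) * Real.sqrt (qn n) ≤ Real.sqrt (1 + qn p) * Real.sqrt (qn n) :=
    mul_le_mul_of_nonneg_right h3 (Real.sqrt_nonneg _)
  have := neg_abs_le (p ⬝ᵥ n)
  linarith

theorem Qc_lower {m : ℕ} (K : Matrix (Fin (m + 1)) (Fin (m + 1)) ℝ) (hK : K.det ≠ 0) (p : Fin (m + 1) → ℝ)
    (r : ℝ) (hr : 0 < r) : Gi (r / Real.sqrt (1 + qn p)) * c0 ≤ Qc K p r := by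
  set n : Fin (m + 1) → ℝ := fun j => K j 0 with hn
  have hn0 : n ≠ 0 := col_ne K hK 0
  have hsq : 0 < Real.sqrt (qn n) := Real.sqrt_pos.2 (qn_pos hn0)
  have hR : 0 < Real.sqrt (1 + qn p) := Real.sqrt_pos.2 (by linarith [qn_nonneg p])
  rw [← proj_gauss n hn0]
  unfold Gi Qc P2
  rw [← Measure.prod_prod]
  apply measure_mono
  rintro ⟨s, x⟩ ⟨h1, h2⟩
  have h1 : |s| < r / Real.sqrt (1 + qn p) := h1
  have h2 : x ⬝ᵥ n < -Real.sqrt (qn n) := h2
  refine ⟨0, ?_⟩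
  show x ⬝ᵥ n < |s| / r * (p ⬝ᵥ n)
  have h3 := dot_ge p n
  have h4 : |s| / r * Real.sqrt (1 + qn p) ≤ 1 := by
    rw [lt_div_iff₀ hR] at h1
    rw [div_mul_eq_mul_div, div_le_one hr]
    exact h1.le
  have h5 : 0 ≤ |s| / r := by positivity
  have h6 : |s| / r * -(Real.sqrt (1 + qn p) * Real.sqrt (qn n)) ≤ |s| / r * (p ⬝ᵥ n) :=
    mul_le_mul_of_nonneg_left h3 h5
  nlinarith

/-- a constant -/
noncomputable def cc : ℝ := (Real.sqrt (2 * Real.pi))⁻¹ * (Real.exp (-1 / 2) * 2) * c0.toReal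

theorem cc_pos : 0 < cc := by
  unfold cc
  have h1 : 0 < c0.toReal := ENNReal.toReal_pos c0_pos.ne' (ne_top_of_le_ne_top ENNReal.one_ne_top c0_le)
  have := Real.pi_pos
  positivity

theorem Gi_lower (ε : ℝ) (hε : 0 < ε) : ENNReal.ofReal (cc * min 1 ε) ≤ Gi ε * c0 := by
  have h0 : c0 = ENNReal.ofReal c0.toReal :=
    (ENNReal.ofReal_toReal (ne_top_of_le_ne_top ENNReal.one_ne_top c0_le)).symm
  set δ := min 1 ε with hδ
  have hδ0 : 0 < δ := lt_min one_pos hε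
  have hδ1 : δ ≤ 1 := min_le_left _ _
  have h1 : Gi δ ≤ Gi ε := Gi_mono (min_le_right _ _)
  have h2 := le_Gi δ
  have h3 : ENNReal.ofReal (Real.exp (-1 / 2)) ≤ ENNReal.ofReal (Real.exp (-δ ^ 2 / 2)) := by
    apply ENNReal.ofReal_le_ofReal
    rw [Real.exp_le_exp]
    nlinarith
  calc ENNReal.ofReal (cc * δ) = c1 * (ENNReal.ofReal (Real.exp (-1 / 2)) * ENNReal.ofReal (2 * δ)) * c0 := by
        rw [h0, c1, ← ENNReal.ofReal_mul (by positivity), ← ENNReal.ofReal_mul (by positivity),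
          ← ENNReal.ofReal_mul (by positivity)]
        congr 1
        unfold cc
        ring
    _ ≤ c1 * (ENNReal.ofReal (Real.exp (-δ ^ 2 / 2)) * ENNReal.ofReal (2 * δ)) * c0 := by gcongr
    _ ≤ Gi δ * c0 := by gcongr
    _ ≤ Gi ε * c0 := by gcongr

theorem rho_le {m : ℕ} (K : Matrix (Fin (m + 1)) (Fin (m + 1)) ℝ) (hK : K.det ≠ 0) (p : Fin (m + 1) → ℝ)
    (r : ℝ) (hr : 0 < r) : rho K p r ≤ ENNReal.ofReal (Real.exp (-(cc * min 1 (r / Real.sqrt (1 + qn p))))) := by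
  have hR : 0 < Real.sqrt (1 + qn p) := Real.sqrt_pos.2 (by linarith [qn_nonneg p])
  have h := (Gi_lower (r / Real.sqrt (1 + qn p)) (by positivity)).trans (Qc_lower K hK p r hr)
  rw [rho_eq]
  calc 1 - Qc K p r ≤ 1 - ENNReal.ofReal (cc * min 1 (r / Real.sqrt (1 + qn p))) := tsub_le_tsub_left h 1
    _ = ENNReal.ofReal (1 - cc * min 1 (r / Real.sqrt (1 + qn p))) := by
        rw [ENNReal.ofReal_sub _ (mul_nonneg cc_pos.le (le_min zero_le_one (by positivity))), ENNReal.ofReal_one]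
    _ ≤ _ := by
        apply ENNReal.ofReal_le_ofReal
        have := Real.add_one_le_exp (-(cc * min 1 (r / Real.sqrt (1 + qn p))))
        linarith

theorem sq_exp (x : ℝ) (hx : 0 ≤ x) : x ^ 2 * Real.exp (-x) ≤ 2 := by
  have h := Real.quadratic_le_exp_of_nonneg hx
  rw [Real.exp_neg, ← div_eq_mul_inv, div_le_iff₀ (Real.exp_pos x)]
  nlinarith

theorem lin_exp (x : ℝ) (hx : 0 ≤ x) : x * Real.exp (-x) ≤ 1 := by
  have h := Real.add_one_le_exp x
  rw [Real.exp_neg, ← div_eq_mul_inv, div_le_iff₀ (Real.exp_pos x)]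
  nlinarith

theorem num_bound (d R r : ℝ) (hd : 1 ≤ d) (hR : 1 ≤ R) (hr : 0 < r) :
    Real.exp (-(d * (cc * min 1 (r / R)))) * Real.exp (-r ^ 2 / 2) * (1 + (d * r) ^ 2) ≤
      1 + 2 * (R ^ 2 + 2) / cc ^ 2 := by
  have hc := cc_pos
  set x := d * (cc * min 1 (r / R)) with hx
  have hmin : 0 < min 1 (r / R) := lt_min one_pos (by positivity)
  have hx0 : 0 ≤ x := by positivity
  have h1 : Real.exp (-x) ≤ 1 := Real.exp_le_one_iff.2 (by linarith)
  have h2 : Real.exp (-r ^ 2 / 2) ≤ 1 := Real.exp_le_one_iff.2 (by nlinarith [sq_nonneg r])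
  have e1 := Real.exp_pos (-x)
  have e2 := Real.exp_pos (-r ^ 2 / 2)
  have h3 : (d * r) ^ 2 ≤ x ^ 2 * (R ^ 2 + r ^ 2) / cc ^ 2 := by
    rw [le_div_iff₀ (by positivity)]
    rcases le_total r R with hrR | hrR
    · have : min 1 (r / R) = r / R := min_eq_right ((div_le_one (by positivity)).2 hrR)
      have hxx : x * R = d * cc * r := by
        rw [hx, this]
        field_simp
      have : (d * r) ^ 2 * cc ^ 2 = x ^ 2 * R ^ 2 := by
        calc (d * r) ^ 2 * cc ^ 2 = (d * cc * r) ^ 2 := by ring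
          _ = (x * R) ^ 2 := by rw [hxx]
          _ = _ := by ring
      rw [this]
      nlinarith [sq_nonneg x, sq_nonneg r, mul_nonneg (sq_nonneg x) (sq_nonneg r)]
    · have : min 1 (r / R) = 1 := min_eq_left ((one_le_div (by positivity)).2 hrR)
      have hxx : x = d * cc := by rw [hx, this, mul_one]
      have : (d * r) ^ 2 * cc ^ 2 = x ^ 2 * r ^ 2 := by
        rw [hxx]; ring
      rw [this]
      nlinarith [sq_nonneg x, sq_nonneg R, mul_nonneg (sq_nonneg x) (sq_nonneg R)]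
  have h4 := sq_exp x hx0
  have h5 : r ^ 2 * Real.exp (-r ^ 2 / 2) ≤ 2 := by
    have := lin_exp (r ^ 2 / 2) (by positivity)
    rw [show -(r ^ 2 / 2) = -r ^ 2 / 2 by ring] at this
    linarith
  have h6 : (R ^ 2 + r ^ 2) * Real.exp (-r ^ 2 / 2) ≤ R ^ 2 + 2 := by
    nlinarith [sq_nonneg R]
  have h7 : Real.exp (-x) * Real.exp (-r ^ 2 / 2) * (d * r) ^ 2 ≤ 2 * (R ^ 2 + 2) / cc ^ 2 := by
    calc Real.exp (-x) * Real.exp (-r ^ 2 / 2) * (d * r) ^ 2
        ≤ Real.exp (-x) * Real.exp (-r ^ 2 / 2) * (x ^ 2 * (R ^ 2 + r ^ 2) / cc ^ 2) :=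
          mul_le_mul_of_nonneg_left h3 (by positivity)
      _ = (x ^ 2 * Real.exp (-x)) * ((R ^ 2 + r ^ 2) * Real.exp (-r ^ 2 / 2)) / cc ^ 2 := by ring
      _ ≤ 2 * (R ^ 2 + 2) / cc ^ 2 := by
          apply div_le_div_of_nonneg_right _ (by positivity)
          exact mul_le_mul h4 h6 (by positivity) (by norm_num)
  have h8 : Real.exp (-x) * Real.exp (-r ^ 2 / 2) ≤ 1 := by nlinarith
  calc Real.exp (-x) * Real.exp (-r ^ 2 / 2) * (1 + (d * r) ^ 2) =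
      Real.exp (-x) * Real.exp (-r ^ 2 / 2) + Real.exp (-x) * Real.exp (-r ^ 2 / 2) * (d * r) ^ 2 := by ring
    _ ≤ _ := add_le_add h8 h7

/-- the integrand -/
noncomputable def Fd {m : ℕ} (K : Matrix (Fin m) (Fin m) ℝ) (d : ℕ) (z : ℝ × (Fin m → ℝ)) : ℝ≥0∞ :=
  g1 (z.1 / d) * rho K z.2 (|z.1| / d) ^ d

/-- the dominating function -/
noncomputable def bd {m : ℕ} (z : ℝ × (Fin m → ℝ)) : ℝ≥0∞ :=
  ENNReal.ofReal ((1 + z.1 ^ 2)⁻¹) * ENNReal.ofReal (1 + 2 * (3 + qn z.2) / cc ^ 2)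

theorem Fd_le {m : ℕ} (K : Matrix (Fin (m + 1)) (Fin (m + 1)) ℝ) (hK : K.det ≠ 0) (d : ℕ) (hd : 1 ≤ d)
    (z : ℝ × (Fin (m + 1) → ℝ)) (hz : z.1 ≠ 0) : Fd K d z ≤ bd z := by
  have hd' : (1 : ℝ) ≤ d := by exact_mod_cast hd
  have hr : 0 < |z.1| / d := div_pos (abs_pos.2 hz) (by linarith)
  have hR : 1 ≤ Real.sqrt (1 + qn z.2) := by
    rw [Real.one_le_sqrt]
    linarith [qn_nonneg z.2]
  have hq := qn_nonneg z.2
  have h1 := rho_le K hK z.2 _ hr
  have h2 : rho K z.2 (|z.1| / d) ^ d ≤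
      ENNReal.ofReal (Real.exp (-(d * (cc * min 1 (|z.1| / d / Real.sqrt (1 + qn z.2)))))) := by
    calc rho K z.2 (|z.1| / d) ^ d ≤
        ENNReal.ofReal (Real.exp (-(cc * min 1 (|z.1| / d / Real.sqrt (1 + qn z.2))))) ^ d := by gcongr
      _ = _ := by
        rw [← ENNReal.ofReal_pow (Real.exp_pos _).le, ← Real.exp_nat_mul]
        congr 2
        ring
  have h3 := num_bound d (Real.sqrt (1 + qn z.2)) (|z.1| / d) hd' hR hr
  have h4 : (d : ℝ) * (|z.1| / d) = |z.1| := mul_div_cancel₀ _ (by linarith)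
  rw [h4, Real.sq_sqrt (by linarith), sq_abs, div_pow, sq_abs, ← div_pow] at h3
  unfold Fd bd g1
  calc ENNReal.ofReal (Real.exp (-(z.1 / d) ^ 2 / 2)) * rho K z.2 (|z.1| / d) ^ d
      ≤ ENNReal.ofReal (Real.exp (-(z.1 / d) ^ 2 / 2)) *
        ENNReal.ofReal (Real.exp (-(d * (cc * min 1 (|z.1| / d / Real.sqrt (1 + qn z.2)))))) := by gcongr
    _ = ENNReal.ofReal (Real.exp (-(d * (cc * min 1 (|z.1| / d / Real.sqrt (1 + qn z.2))))) *
          Real.exp (-(z.1 / d) ^ 2 / 2)) := by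
        rw [← ENNReal.ofReal_mul (Real.exp_pos _).le, mul_comm]
    _ ≤ ENNReal.ofReal ((1 + z.1 ^ 2)⁻¹ * (1 + 2 * (3 + qn z.2) / cc ^ 2)) := by
        apply ENNReal.ofReal_le_ofReal
        rw [inv_mul_eq_div, le_div_iff₀ (by positivity)]
        calc _ ≤ 1 + 2 * (1 + qn z.2 + 2) / cc ^ 2 := h3
          _ = _ := by ring
    _ = _ := ENNReal.ofReal_mul (by positivity)

end Q298.Sol
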