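import Mathlib
import Pool.Agent.Q298.Sol.A3

set_option autoImplicit false
set_option maxHeartbeats 1000000
open Matrix MeasureTheory Set ProbabilityTheory Q298.Sv Filter
open scoped ENNReal Topology

namespace Q298.Sol

/-- the slope -/
noncomputable def Lam {m : ℕ} (K : Matrix (Fin (m + 1)) (Fin (m + 1)) ℝ) (p x : Fin (m + 1) → ℝ) : ℝ :=
  Finset.univ.sup' Finset.univ_nonempty (fun i => (x ᵥ* K) i / (p ᵥ* K) i)

theorem Lam_lt {m : ℕ} (K : Matrix (Fin (m + 1)) (Fin (m + 1)) ℝ) (p x : Fin (m + 1) → ℝ) (a : ℝ) :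
    a < Lam K p x ↔ ∃ i, a < (x ᵥ* K) i / (p ᵥ* K) i := by
  unfold Lam
  rw [Finset.lt_sup'_iff]
  simp

theorem measurable_Lam {m : ℕ} (K : Matrix (Fin (m + 1)) (Fin (m + 1)) ℝ) (p : Fin (m + 1) → ℝ) :
    Measurable (Lam K p) := by
  have h : Measurable (Finset.univ.sup' Finset.univ_nonempty
      (fun (i : Fin (m + 1)) (x : Fin (m + 1) → ℝ) => (x ᵥ* K) i / (p ᵥ* K) i)) := by
    apply Finset.measurable_sup'
    intro i _
    exact ((measurable_pi_apply i).comp (meas_vm K)).div_const _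
  convert h using 1
  funext x
  unfold Lam
  rw [Finset.sup'_apply]

theorem measurable_Gi : Measurable Gi := Monotone.measurable fun _ _ h => Gi_mono h

theorem Qc_eq {m : ℕ} (K : Matrix (Fin (m + 1)) (Fin (m + 1)) ℝ) (p : Fin (m + 1) → ℝ)
    (hp : ∀ i, (p ᵥ* K) i < 0) (r : ℝ) (hr : 0 < r) :
    Qc K p r = ∫⁻ x, Gi (r * Lam K p x) ∂(gam (m + 1)) := by
  have hs : MeasurableSet {z : ℝ × (Fin (m + 1) → ℝ) | ∃ i, (z.2 ᵥ* K) i < |z.1| / r * (p ᵥ* K) i} := by
    have h : {z : ℝ × (Fin (m + 1) → ℝ) | ∃ i, (z.2 ᵥ* K) i < |z.1| / r * (p ᵥ* K) i} =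
      {z : ℝ × (Fin (m + 1) → ℝ) | ∀ i, |z.1| / r * (p ᵥ* K) i ≤ (z.2 ᵥ* K) i}ᶜ := by
      ext z
      simp
    rw [h]
    exact (meas_rs K p r).compl
  unfold Qc P2
  rw [Measure.prod_apply_symm hs]
  apply lintegral_congr
  intro x
  unfold Gi
  congr 1
  ext s
  show (∃ i, (x ᵥ* K) i < |s| / r * (p ᵥ* K) i) ↔ |s| < r * Lam K p x
  rw [mul_comm r, ← div_lt_iff₀ hr, Lam_lt]
  apply exists_congr
  intro i
  rw [lt_div_iff_of_neg (hp i)]

theorem abs_coord_int {m : ℕ} (j : Fin m) : Integrable (fun x : Fin m → ℝ => |x j|) (gam m) := by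
  have h1 : Integrable (fun x : ℝ => |x|) ga1 := by
    have := (memLp_id_gaussianReal (μ := 0) (v := 1) 1).integrable (by norm_num)
    exact this.abs
  have h2 := (measurePreserving_eval (fun _ : Fin m => ga1) j)
  exact h2.integrable_comp_of_integrable h1

theorem sq_coord_int {m : ℕ} (j : Fin m) : Integrable (fun x : Fin m → ℝ => x j ^ 2) (gam m) := by
  have h1 : Integrable (fun x : ℝ => x ^ 2) ga1 := by
    have := (memLp_id_gaussianReal (μ := 0) (v := 1) 2).integrable_sq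
    exact this
  have h2 := (measurePreserving_eval (fun _ : Fin m => ga1) j)
  exact h2.integrable_comp_of_integrable h1

theorem Lam_le {m : ℕ} (K : Matrix (Fin (m + 1)) (Fin (m + 1)) ℝ) (p x : Fin (m + 1) → ℝ) :
    Lam K p x ≤ ∑ i, ∑ j, |x j| * (|K j i| / |(p ᵥ* K) i|) := by
  unfold Lam
  apply Finset.sup'_le
  intro i _
  calc (x ᵥ* K) i / (p ᵥ* K) i ≤ |(x ᵥ* K) i / (p ᵥ* K) i| := le_abs_self _
    _ = |(x ᵥ* K) i| / |(p ᵥ* K) i| := abs_div _ _
    _ ≤ (∑ j, |x j| * |K j i|) / |(p ᵥ* K) i| := by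
        apply div_le_div_of_nonneg_right _ (abs_nonneg _)
        rw [vm_dot]
        unfold dotProduct
        calc |∑ j, x j * K j i| ≤ ∑ j, |x j * K j i| := Finset.abs_sum_le_sum_abs _ _
          _ = _ := Finset.sum_congr rfl fun j _ => abs_mul _ _
    _ = ∑ j, |x j| * (|K j i| / |(p ᵥ* K) i|) := by
        rw [Finset.sum_div]
        exact Finset.sum_congr rfl fun j _ => by ring
    _ ≤ ∑ i, ∑ j, |x j| * (|K j i| / |(p ᵥ* K) i|) :=
        Finset.single_le_sum (f := fun i => ∑ j, |x j| * (|K j i| / |(p ᵥ* K) i|))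
          (fun i _ => Finset.sum_nonneg fun j _ => by positivity) (Finset.mem_univ i)

/-- the exponent -/
noncomputable def kap {m : ℕ} (K : Matrix (Fin (m + 1)) (Fin (m + 1)) ℝ) (p : Fin (m + 1) → ℝ) (τ : ℝ) : ℝ≥0∞ :=
  ∫⁻ x, c1 * ENNReal.ofReal (2 * (|τ| * Lam K p x)) ∂(gam (m + 1))

theorem kap_ne_top {m : ℕ} (K : Matrix (Fin (m + 1)) (Fin (m + 1)) ℝ) (p : Fin (m + 1) → ℝ) (τ : ℝ) :
    kap K p τ ≠ ⊤ := by
  have hi : Integrable (fun x : Fin (m + 1) → ℝ => 2 * (|τ| * ∑ i, ∑ j, |x j| * (|K j i| / |(p ᵥ* K) i|)))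
      (gam (m + 1)) := by
    apply Integrable.const_mul
    apply Integrable.const_mul
    apply integrable_finsetSum
    intro i _
    apply integrable_finsetSum
    intro j _
    exact (abs_coord_int j).mul_const _
  have h1 := hi.lintegral_lt_top
  have hm : Measurable fun x : Fin (m + 1) → ℝ => ENNReal.ofReal (2 * (|τ| * Lam K p x)) :=
    ENNReal.measurable_ofReal.comp (((measurable_Lam K p).const_mul _).const_mul _)
  unfold kap
  rw [lintegral_const_mul _ hm]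
  apply ENNReal.mul_ne_top c1_ne_top
  apply ne_top_of_le_ne_top h1.ne
  apply lintegral_mono
  intro x
  apply ENNReal.ofReal_le_ofReal
  have := Lam_le K p x
  gcongr

theorem nat_mul_ofReal (d : ℕ) (hd : 1 ≤ d) (a : ℝ) : (d : ℝ≥0∞) * ENNReal.ofReal (2 * (a / d)) = ENNReal.ofReal (2 * a) := by
  have hd' : (0 : ℝ) < d := by exact_mod_cast hd
  rw [← ENNReal.ofReal_natCast, ← ENNReal.ofReal_mul hd'.le]
  congr 1
  field_simp

theorem dGi_lim (a : ℝ) : Tendsto (fun d : ℕ => (d : ℝ≥0∞) * Gi (a / d)) atTop (𝓝 (c1 * ENNReal.ofReal (2 * a))) := by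
  have hup : ∀ᶠ d : ℕ in atTop, (d : ℝ≥0∞) * Gi (a / d) ≤ c1 * ENNReal.ofReal (2 * a) := by
    filter_upwards [eventually_ge_atTop 1] with d hd
    calc (d : ℝ≥0∞) * Gi (a / d) ≤ d * (c1 * ENNReal.ofReal (2 * (a / d))) := by gcongr; exact Gi_le _
      _ = c1 * (d * ENNReal.ofReal (2 * (a / d))) := by ring
      _ = _ := by rw [nat_mul_ofReal d hd]
  have hlo : ∀ᶠ d : ℕ in atTop, c1 * (ENNReal.ofReal (Real.exp (-(a / d) ^ 2 / 2)) * ENNReal.ofReal (2 * a)) ≤
      (d : ℝ≥0∞) * Gi (a / d) := by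
    filter_upwards [eventually_ge_atTop 1] with d hd
    calc c1 * (ENNReal.ofReal (Real.exp (-(a / d) ^ 2 / 2)) * ENNReal.ofReal (2 * a))
        = d * (c1 * (ENNReal.ofReal (Real.exp (-(a / d) ^ 2 / 2)) * ENNReal.ofReal (2 * (a / d)))) := by
          rw [← nat_mul_ofReal d hd a]; ring
      _ ≤ _ := by gcongr; exact le_Gi _
  have hl : Tendsto (fun d : ℕ => c1 * (ENNReal.ofReal (Real.exp (-(a / d) ^ 2 / 2)) * ENNReal.ofReal (2 * a))) atTop
      (𝓝 (c1 * (1 * ENNReal.ofReal (2 * a)))) := by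
    apply ENNReal.Tendsto.const_mul _ (Or.inr c1_ne_top)
    apply ENNReal.Tendsto.mul_const _ (Or.inr ENNReal.ofReal_ne_top)
    rw [← ENNReal.ofReal_one]
    apply ENNReal.tendsto_ofReal
    have h1 : Tendsto (fun d : ℕ => a / (d : ℝ)) atTop (𝓝 0) := tendsto_const_div_atTop_nhds_zero_nat a
    have h2 : Tendsto (fun d : ℕ => Real.exp (-(a / (d : ℝ)) ^ 2 / 2)) atTop (𝓝 (Real.exp (-(0 : ℝ) ^ 2 / 2))) :=
      (continuous_exp_sq.tendsto 0).comp h1
    simpa using h2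
  rw [one_mul] at hl
  exact tendsto_of_tendsto_of_tendsto_of_le_of_le' hl tendsto_const_nhds hlo hup

theorem dQc_lim {m : ℕ} (K : Matrix (Fin (m + 1)) (Fin (m + 1)) ℝ) (p : Fin (m + 1) → ℝ)
    (hp : ∀ i, (p ᵥ* K) i < 0) (τ : ℝ) (hτ : τ ≠ 0) :
    Tendsto (fun d : ℕ => (d : ℝ≥0∞) * Qc K p (|τ| / d)) atTop (𝓝 (kap K p τ)) := by
  have hm : ∀ d : ℕ, Measurable fun x : Fin (m + 1) → ℝ => Gi (|τ| * Lam K p x / d) := fun d =>
    measurable_Gi.comp (((measurable_Lam K p).const_mul _).div_const _)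
  have h : Tendsto (fun d : ℕ => ∫⁻ x, (d : ℝ≥0∞) * Gi (|τ| * Lam K p x / d) ∂(gam (m + 1))) atTop
      (𝓝 (kap K p τ)) := by
    apply tendsto_lintegral_of_dominated_convergence (fun x => c1 * ENNReal.ofReal (2 * (|τ| * Lam K p x)))
    · intro d
      exact (hm d).const_mul _
    · intro d
      apply Eventually.of_forall
      intro x
      show (d : ℝ≥0∞) * Gi (|τ| * Lam K p x / d) ≤ c1 * ENNReal.ofReal (2 * (|τ| * Lam K p x))
      rcases Nat.eq_zero_or_pos d with hd | hd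
      · subst hd
        simp
      · calc (d : ℝ≥0∞) * Gi (|τ| * Lam K p x / d) ≤ d * (c1 * ENNReal.ofReal (2 * (|τ| * Lam K p x / d))) := by
              gcongr; exact Gi_le _
          _ = c1 * (d * ENNReal.ofReal (2 * (|τ| * Lam K p x / d))) := by ring
          _ = _ := by rw [nat_mul_ofReal d hd]
    · exact kap_ne_top K p τ
    · apply Eventually.of_forall
      intro x
      exact dGi_lim _
  apply h.congr'
  filter_upwards [eventually_ge_atTop 1] with d hd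
  have hd' : (0 : ℝ) < d := by exact_mod_cast hd
  rw [Qc_eq K p hp _ (div_pos (abs_pos.2 hτ) hd'), lintegral_const_mul _ (hm d)]
  congr 1
  apply lintegral_congr
  intro x
  congr 1
  ring

theorem caseB {m : ℕ} (K : Matrix (Fin (m + 1)) (Fin (m + 1)) ℝ) (p : Fin (m + 1) → ℝ)
    (hp : ∀ i, (p ᵥ* K) i < 0) (τ : ℝ) (hτ : τ ≠ 0) :
    Tendsto (fun d : ℕ => rho K p (|τ| / d) ^ d) atTop (𝓝 (ENNReal.ofReal (Real.exp (-(kap K p τ).toReal)))) := by
  have hq : ∀ r, Qc K p r ≤ 1 := fun r => prob_le_one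
  have h1 := (ENNReal.tendsto_toReal (kap_ne_top K p τ)).comp (dQc_lim K p hp τ hτ)
  have h2 : Tendsto (fun d : ℕ => (d : ℝ) * (-(Qc K p (|τ| / d)).toReal)) atTop (𝓝 (-(kap K p τ).toReal)) := by
    apply (h1.neg).congr
    intro d
    simp [ENNReal.toReal_mul]
  have h3 := Real.tendsto_one_add_pow_exp_of_tendsto h2
  have h4 := ENNReal.tendsto_ofReal h3
  apply h4.congr
  intro d
  rw [rho_eq]
  have h5 : 1 - Qc K p (|τ| / d) = ENNReal.ofReal (1 + -(Qc K p (|τ| / d)).toReal) := by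
    rw [← sub_eq_add_neg, ENNReal.ofReal_sub _ ENNReal.toReal_nonneg, ENNReal.ofReal_one,
      ENNReal.ofReal_toReal (ne_top_of_le_ne_top ENNReal.one_ne_top (hq _))]
  rw [h5, ENNReal.ofReal_pow]
  have : (Qc K p (|τ| / d)).toReal ≤ 1 := by
    have := ENNReal.toReal_mono ENNReal.one_ne_top (hq (|τ| / d))
    simpa using this
  linarith

theorem caseA {m : ℕ} (K : Matrix (Fin (m + 1)) (Fin (m + 1)) ℝ) (hK : K.det ≠ 0) (p : Fin (m + 1) → ℝ)
    (hp : ¬ ∀ i, (p ᵥ* K) i < 0) (τ : ℝ) :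
    Tendsto (fun d : ℕ => rho K p (|τ| / d) ^ d) atTop (𝓝 0) := by
  push Not at hp
  obtain ⟨i, hi⟩ := hp
  have hQ : ∀ d : ℕ, c0 ≤ Qc K p (|τ| / d) := by
    intro d
    rw [← proj_gauss (fun j => K j i) (col_ne K hK i)]
    have : gam (m + 1) {x | x ⬝ᵥ (fun j => K j i) < -Real.sqrt (qn fun j => K j i)} =
        P2 (m + 1) (univ ×ˢ {x | x ⬝ᵥ (fun j => K j i) < -Real.sqrt (qn fun j => K j i)}) := by
      unfold P2
      rw [Measure.prod_prod, measure_univ, one_mul]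
    rw [this]
    apply measure_mono
    rintro ⟨s, x⟩ ⟨_, hx⟩
    have hx : x ⬝ᵥ (fun j => K j i) < -Real.sqrt (qn fun j => K j i) := hx
    refine ⟨i, ?_⟩
    show x ⬝ᵥ (fun j => K j i) < |s| / (|τ| / d) * (p ᵥ* K) i
    have h1 : 0 ≤ |s| / (|τ| / d) * (p ᵥ* K) i := by positivity
    have h2 := Real.sqrt_nonneg (qn fun j => K j i)
    linarith
  have hr : ∀ d : ℕ, rho K p (|τ| / d) ^ d ≤ (1 - c0) ^ d := by
    intro d
    rw [rho_eq]
    gcongr
    exact hQ d
  have hlim : Tendsto (fun d : ℕ => (1 - c0) ^ d) atTop (𝓝 0) := by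
    apply ENNReal.tendsto_pow_atTop_nhds_zero_of_lt_one
    exact ENNReal.sub_lt_self ENNReal.one_ne_top one_ne_zero c0_pos.ne'
  exact tendsto_of_tendsto_of_tendsto_of_le_of_le tendsto_const_nhds hlim (fun _ => zero_le) hr

open Classical in
/-- the limit of the integrands -/
noncomputable def Finf {m : ℕ} (K : Matrix (Fin (m + 1)) (Fin (m + 1)) ℝ) (z : ℝ × (Fin (m + 1) → ℝ)) : ℝ≥0∞ :=
  if ∀ i, (z.2 ᵥ* K) i < 0 then ENNReal.ofReal (Real.exp (-(kap K z.2 z.1).toReal)) else 0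

theorem Fd_lim {m : ℕ} (K : Matrix (Fin (m + 1)) (Fin (m + 1)) ℝ) (hK : K.det ≠ 0)
    (z : ℝ × (Fin (m + 1) → ℝ)) (hz : z.1 ≠ 0) : Tendsto (fun d : ℕ => Fd K d z) atTop (𝓝 (Finf K z)) := by
  have hg : Tendsto (fun d : ℕ => g1 (z.1 / d)) atTop (𝓝 1) := by
    have h1 : Tendsto (fun d : ℕ => z.1 / (d : ℝ)) atTop (𝓝 0) := tendsto_const_div_atTop_nhds_zero_nat _
    have h2 := ENNReal.tendsto_ofReal ((continuous_exp_sq.tendsto 0).comp h1)
    have h3 : ENNReal.ofReal (Real.exp (-(0 : ℝ) ^ 2 / 2)) = 1 := by simp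
    rw [h3] at h2
    exact h2
  have hr : Tendsto (fun d : ℕ => rho K z.2 (|z.1| / d) ^ d) atTop (𝓝 (Finf K z)) := by
    unfold Finf
    split_ifs with h
    · exact caseB K z.2 h z.1 hz
    · exact caseA K hK z.2 h z.1
  have hne : Finf K z ≠ ⊤ := by
    unfold Finf
    split_ifs
    · exact ENNReal.ofReal_ne_top
    · exact ENNReal.zero_ne_top
  have := ENNReal.Tendsto.mul hg (Or.inr hne) hr (Or.inr ENNReal.one_ne_top)
  rw [one_mul] at this
  exact this

theorem meas_rho {m : ℕ} (K : Matrix (Fin m) (Fin m) ℝ) :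
    Measurable fun w : ℝ × (Fin m → ℝ) => rho K w.2 w.1 := by
  have hs : MeasurableSet {q : (ℝ × (Fin m → ℝ)) × (ℝ × (Fin m → ℝ)) |
      ∀ i, |q.2.1| / q.1.1 * (q.1.2 ᵥ* K) i ≤ (q.2.2 ᵥ* K) i} := by
    have : {q : (ℝ × (Fin m → ℝ)) × (ℝ × (Fin m → ℝ)) | ∀ i, |q.2.1| / q.1.1 * (q.1.2 ᵥ* K) i ≤ (q.2.2 ᵥ* K) i} =
      ⋂ i, {q | |q.2.1| / q.1.1 * (q.1.2 ᵥ* K) i ≤ (q.2.2 ᵥ* K) i} := by ext; simp
    rw [this]
    refine MeasurableSet.iInter fun i => measurableSet_le ?_ ?_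
    · have h1 : Measurable fun q : (ℝ × (Fin m → ℝ)) × (ℝ × (Fin m → ℝ)) => |q.2.1| :=
        (measurable_fst.comp measurable_snd).norm
      have h2 : Measurable fun q : (ℝ × (Fin m → ℝ)) × (ℝ × (Fin m → ℝ)) => q.1.1 :=
        measurable_fst.comp measurable_fst
      have h3 : Measurable fun q : (ℝ × (Fin m → ℝ)) × (ℝ × (Fin m → ℝ)) => (q.1.2 ᵥ* K) i :=
        (measurable_pi_apply i).comp ((meas_vm K).comp (measurable_snd.comp measurable_fst))
      exact (h1.div h2).mul h3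
    · exact (measurable_pi_apply i).comp ((meas_vm K).comp (measurable_snd.comp measurable_snd))
  exact measurable_measure_prodMk_left hs

theorem meas_Fd {m : ℕ} (K : Matrix (Fin m) (Fin m) ℝ) (d : ℕ) : Measurable (Fd K d) := by
  unfold Fd
  have h1 : Measurable fun z : ℝ × (Fin m → ℝ) => g1 (z.1 / d) := measurable_g1.comp (measurable_fst.div_const _)
  have h2 : Measurable fun z : ℝ × (Fin m → ℝ) => ((|z.1| / d, z.2) : ℝ × (Fin m → ℝ)) :=
    (measurable_fst.norm.div_const _).prodMk measurable_snd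
  have h3 : Measurable fun z : ℝ × (Fin m → ℝ) => rho K z.2 (|z.1| / d) ^ d := ((meas_rho K).comp h2).pow_const d
  exact h1.mul h3

/-- the total mass of the dominating function -/
noncomputable def Bm (m : ℕ) : ℝ≥0∞ := ∫⁻ z : ℝ × (Fin (m + 1) → ℝ), bd z ∂(volume.prod (gam (m + 1)))

theorem Bm_ne_top (m : ℕ) : Bm m ≠ ⊤ := by
  unfold Bm bd
  have h1 : Integrable (fun t : ℝ => (1 + t ^ 2)⁻¹) := integrable_inv_one_add_sq
  have h2 : Integrable (fun p : Fin (m + 1) → ℝ => 1 + 2 * (3 + qn p) / cc ^ 2) (gam (m + 1)) := by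
    apply (integrable_const _).add
    apply Integrable.div_const
    apply Integrable.const_mul
    apply (integrable_const _).add
    unfold qn
    apply integrable_finsetSum
    intro i _
    exact sq_coord_int i
  have e1 : AEMeasurable (fun t : ℝ => ENNReal.ofReal ((1 + t ^ 2)⁻¹)) := by fun_prop
  have e2 : AEMeasurable (fun p : Fin (m + 1) → ℝ => ENNReal.ofReal (1 + 2 * (3 + qn p) / cc ^ 2)) (gam (m + 1)) := by
    have : Measurable (qn : (Fin (m + 1) → ℝ) → ℝ) := continuous_qn.measurable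
    fun_prop
  have := lintegral_prod_mul (μ := (volume : Measure ℝ)) (ν := gam (m + 1)) e1 e2
  rw [this]
  exact ENNReal.mul_ne_top h1.lintegral_lt_top.ne h2.lintegral_lt_top.ne

theorem gam_pos {m : ℕ} (U : Set (Fin m → ℝ)) (hU : IsOpen U) (hne : U.Nonempty) : gam m U ≠ 0 := by
  intro h
  rw [← lintegral_indicator_one hU.measurableSet, lint_gam _ (measurable_one.indicator hU.measurableSet)] at h
  rcases mul_eq_zero.1 h with h | h
  · exact pow_ne_zero _ c1_ne_zero h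
  · have hmm : Measurable fun x : Fin m → ℝ => gv x * U.indicator (1 : (Fin m → ℝ) → ℝ≥0∞) x :=
      measurable_gv.mul (measurable_one.indicator hU.measurableSet)
    rw [lintegral_eq_zero_iff hmm] at h
    have h2 : ∀ᵐ x : Fin m → ℝ, x ∉ U := by
      filter_upwards [h] with x hx hx2
      rw [indicator_of_mem hx2, Pi.one_apply, mul_one] at hx
      have : gv x ≠ 0 := by
        rw [gv_qn, ne_eq, ENNReal.ofReal_eq_zero, not_le]
        exact Real.exp_pos _
      exact this hx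
    have h3 : volume U = 0 := measure_mono_null (s := U) (t := {x | ¬ x ∉ U}) (μ := volume)
        (fun x hx => not_not.2 hx) h2
    exact (hU.measure_pos volume hne).ne' h3

theorem fst_ae {m : ℕ} : ∀ᵐ z : ℝ × (Fin m → ℝ) ∂((volume : Measure ℝ).prod (gam m)), z.1 ≠ 0 := by
  have h : ∀ᵐ t : ℝ, t ≠ 0 := by
    have : volume ({0} : Set ℝ) = 0 := measure_singleton 0
    exact compl_mem_ae_iff.2 this
  exact Measure.quasiMeasurePreserving_fst.ae h

/-- the limit of the integrals -/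
theorem J_lim {m : ℕ} (K : Matrix (Fin (m + 1)) (Fin (m + 1)) ℝ) (hK : K.det ≠ 0) :
    (∀ d : ℕ, 1 ≤ d → ∫⁻ z, Fd K d z ∂((volume : Measure ℝ).prod (gam (m + 1))) ≤ Bm m) ∧
    ∃ L : ℝ≥0∞, L ≠ 0 ∧
      Tendsto (fun d : ℕ => ∫⁻ z, Fd K d z ∂((volume : Measure ℝ).prod (gam (m + 1)))) atTop (𝓝 L) := by
  have hb : ∀ d : ℕ, 1 ≤ d → ∀ᵐ z ∂((volume : Measure ℝ).prod (gam (m + 1))), Fd K d z ≤ bd z := by
    intro d hd
    filter_upwards [fst_ae (m := m + 1)] with z hz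
    exact Fd_le K hK d hd z hz
  have hl : ∀ᵐ z ∂((volume : Measure ℝ).prod (gam (m + 1))), Tendsto (fun d : ℕ => Fd K d z) atTop (𝓝 (Finf K z)) := by
    filter_upwards [fst_ae (m := m + 1)] with z hz
    exact Fd_lim K hK z hz
  refine ⟨fun d hd => lintegral_mono_ae (hb d hd), ∫⁻ z, Finf K z ∂((volume : Measure ℝ).prod (gam (m + 1))), ?_, ?_⟩
  · have hm : AEMeasurable (Finf K) ((volume : Measure ℝ).prod (gam (m + 1))) :=
      aemeasurable_of_tendsto_metrizable_ae atTop (fun d => (meas_Fd K d).aemeasurable) hl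
    intro h0
    rw [lintegral_eq_zero_iff' hm] at h0
    have hU : IsOpen {p : Fin (m + 1) → ℝ | ∀ i, (p ᵥ* K) i < 0} := by
      have : {p : Fin (m + 1) → ℝ | ∀ i, (p ᵥ* K) i < 0} = ⋂ i, {p | (p ᵥ* K) i < 0} := by ext; simp
      rw [this]
      apply isOpen_iInter_of_finite
      intro i
      apply isOpen_lt _ continuous_const
      have : Continuous fun p : Fin (m + 1) → ℝ => p ᵥ* K := by fun_prop
      exact (continuous_apply i).comp this
    have hne : ({p : Fin (m + 1) → ℝ | ∀ i, (p ᵥ* K) i < 0}).Nonempty := by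
      refine ⟨(fun _ => -1) ᵥ* K⁻¹, ?_⟩
      intro i
      rw [vecMul_vecMul, nonsing_inv_mul _ (isUnit_iff_ne_zero.2 hK), vecMul_one]
      norm_num
    have hg := gam_pos _ hU hne
    have h1 : ((volume : Measure ℝ).prod (gam (m + 1))) (univ ×ˢ {p : Fin (m + 1) → ℝ | ∀ i, (p ᵥ* K) i < 0}) = 0 := by
      apply measure_mono_null (t := {z | ¬ Finf K z = 0}) _ h0
      rintro ⟨t, p⟩ ⟨_, hp⟩
      have hp : ∀ i, (((t, p) : ℝ × (Fin (m + 1) → ℝ)).2 ᵥ* K) i < 0 := hp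
      show ¬ Finf K (t, p) = 0
      unfold Finf
      rw [if_pos hp, ENNReal.ofReal_eq_zero, not_le]
      exact Real.exp_pos _
    rw [Measure.prod_prod, mul_eq_zero] at h1
    rcases h1 with h1 | h1
    · simp at h1
    · exact hg h1
  · have hF : Tendsto (fun d : ℕ => ∫⁻ z, Fd K (d + 1) z ∂((volume : Measure ℝ).prod (gam (m + 1)))) atTop
        (𝓝 (∫⁻ z, Finf K z ∂((volume : Measure ℝ).prod (gam (m + 1))))) := by
      apply tendsto_lintegral_of_dominated_convergence bd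
      · intro d
        exact meas_Fd K _
      · intro d
        exact hb (d + 1) (Nat.le_add_left 1 d)
      · exact Bm_ne_top m
      · filter_upwards [hl] with z hz
        exact hz.comp (tendsto_add_atTop_nat 1)
    exact (tendsto_add_atTop_iff_nat 1).1 hF

end Q298.Sol
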