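import Mathlib
import Pool.Agent.Q298.Sol.A4

set_option autoImplicit false
set_option maxHeartbeats 1000000
open Matrix MeasureTheory Set ProbabilityTheory Q298.Sv Filter
open scoped ENNReal Topology

namespace Q298.Sol

theorem meas_pw (n d : ℕ) : Measurable fun H : MM n => (d : ℝ≥0∞) * (2 * ang H) ^ d :=
  (((measurable_ang n).const_mul 2).pow_const d).const_mul _

/-- the inner integral -/
noncomputable def Idd {n : ℕ} (d : ℕ) (h : Fin n → Fin (n + 1) → ℝ) : ℝ≥0∞ :=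
  ∫⁻ g, (d : ℝ≥0∞) * (2 * ang (Fin.cons g h : MM (n + 1))) ^ d ∂(gam (n + 1))

theorem meas_cons2 (n d : ℕ) : Measurable fun z : (Fin (n + 1) → ℝ) × (Fin n → Fin (n + 1) → ℝ) =>
    (d : ℝ≥0∞) * (2 * ang (Fin.cons z.1 z.2 : MM (n + 1))) ^ d :=
  (meas_pw (n + 1) d).comp (mp_cons (gam (n + 1)) n).measurable

theorem meas_Idd (n d : ℕ) : Measurable (Idd d : (Fin n → Fin (n + 1) → ℝ) → ℝ≥0∞) :=
  (meas_cons2 n d).lintegral_prod_left'

theorem meas_g (n d : ℕ) (h : Fin n → Fin (n + 1) → ℝ) : Measurable fun g : Fin (n + 1) → ℝ =>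
    (d : ℝ≥0∞) * (2 * ang (Fin.cons g h : MM (n + 1))) ^ d := by
  have h1 : Measurable fun g : Fin (n + 1) → ℝ => (Fin.cons g h : MM (n + 1)) := by
    rw [measurable_pi_iff]
    intro i
    refine Fin.cases ?_ (fun i => ?_) i
    · simp only [Fin.cons_zero]
      exact measurable_id
    · simp only [Fin.cons_succ]
      exact measurable_const
  have h2 : Measurable fun g : Fin (n + 1) → ℝ => ang (Fin.cons g h : MM (n + 1)) :=
    (measurable_ang (n + 1)).comp h1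
  exact ((h2.const_mul 2).pow_const d).const_mul _

theorem split_all (n d : ℕ) :
    ∫⁻ H, (d : ℝ≥0∞) * (2 * ang H) ^ d ∂(Gam (n + 1) (n + 1)) = ∫⁻ h, Idd d h ∂(Gam n (n + 1)) :=
  lint_cons (gam (n + 1)) n _ (meas_pw (n + 1) d)

theorem Idd_rot {n : ℕ} (d : ℕ) (h : Fin n → Fin (n + 1) → ℝ) {O : Matrix (Fin (n + 1)) (Fin (n + 1)) ℝ}
    (hO : Oᵀ * O = 1) : Idd d (fun i => h i ᵥ* O) = Idd d h := by
  unfold Idd
  rw [← (rot_gam hO).lintegral_comp (meas_g n d _)]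
  apply lintegral_congr
  intro g
  have : (Fin.cons (g ᵥ* O) (fun i => h i ᵥ* O) : MM (n + 1)) =
      fun i => (Fin.cons g h : MM (n + 1)) i ᵥ* O := by
    funext i
    refine Fin.cases ?_ (fun i => ?_) i <;> simp
  rw [this, ang_rot hO]

theorem good_rot {n : ℕ} (h : Fin n → Fin (n + 1) → ℝ) (g : Fin (n + 1) → ℝ)
    (hg : (Matrix.of (Fin.cons g h : MM (n + 1))).det ≠ 0) :
    ∃ O : Matrix (Fin (n + 1)) (Fin (n + 1)) ℝ, Oᵀ * O = 1 ∧ ∃ h' : MM n, (Matrix.of h').det ≠ 0 ∧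
      (fun i => h i ᵥ* O) = fun i => (Fin.cons 0 (h' i) : Fin (n + 1) → ℝ) := by
  obtain ⟨ν, hν1, hν2⟩ := exists_normal (Fin.cons g h : MM (n + 1))
  obtain ⟨O, h1, h2⟩ := exists_rot ν hν1
  have h3 : O * Oᵀ = 1 := mul_eq_one_comm.1 h1
  have hT : (Oᵀ)ᵀ * Oᵀ = 1 := by rw [transpose_transpose]; exact h3
  have hz : ∀ i, (h i ᵥ* Oᵀ) 0 = 0 := by
    intro i
    have e1 : (h i ᵥ* Oᵀ) 0 = (O *ᵥ ν) ⬝ᵥ (O *ᵥ h i) := by
      rw [h2, vecMul_transpose, single_dotProduct, one_mul]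
    rw [e1, dot_gram, h1, one_mulVec]
    have := hν2 i
    rwa [Fin.cons_succ] at this
  have hr : (fun i => h i ᵥ* Oᵀ) = fun i => (Fin.cons 0 (Fin.tail (h i ᵥ* Oᵀ)) : Fin (n + 1) → ℝ) := by
    funext i
    conv_lhs => rw [← Fin.cons_self_tail (h i ᵥ* Oᵀ)]
    rw [hz i]
  refine ⟨Oᵀ, hT, fun i => Fin.tail (h i ᵥ* Oᵀ), ?_, hr⟩
  apply det_of_Mt ((g ᵥ* Oᵀ) 0) (Fin.tail (g ᵥ* Oᵀ))
  have e2 : Matrix.of (Mt ((g ᵥ* Oᵀ) 0) (Fin.tail (g ᵥ* Oᵀ)) (fun i => Fin.tail (h i ᵥ* Oᵀ))) =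
      Matrix.of (Fin.cons g h : MM (n + 1)) * Oᵀ := by
    ext i j
    show Mt ((g ᵥ* Oᵀ) 0) (Fin.tail (g ᵥ* Oᵀ)) (fun i => Fin.tail (h i ᵥ* Oᵀ)) i j =
      ((Fin.cons g h : MM (n + 1)) i ᵥ* Oᵀ) j
    refine Fin.cases ?_ (fun i => ?_) i
    · unfold Mt
      rw [Fin.cons_zero, Fin.cons_zero, Fin.cons_self_tail]
    · unfold Mt
      rw [Fin.cons_succ, Fin.cons_succ]
      have := congrFun (congrFun hr i) j
      exact this.symm
  rw [e2, det_mul]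
  apply mul_ne_zero hg
  intro h0
  have := congrArg Matrix.det h3
  rw [det_mul, h0, mul_zero, det_one] at this
  exact zero_ne_one this

theorem scale1 (f : ℝ → ℝ≥0∞) (hf : Measurable f) (d : ℕ) (hd : 1 ≤ d) :
    ∫⁻ t, f (t / d) = d * ∫⁻ t, f t := by
  have hd' : (0 : ℝ) < d := by exact_mod_cast hd
  have h := Measure.map_linearMap_addHaar_eq_smul_addHaar (E := ℝ) volume
    (f := (d : ℝ)⁻¹ • LinearMap.id) (by simp; omega)
  have hdet : LinearMap.det ((d : ℝ)⁻¹ • (LinearMap.id : ℝ →ₗ[ℝ] ℝ)) = (d : ℝ)⁻¹ := by simp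
  rw [hdet, inv_inv, abs_of_pos hd', ENNReal.ofReal_natCast] at h
  have hm : Measurable ((d : ℝ)⁻¹ • (LinearMap.id : ℝ →ₗ[ℝ] ℝ)) :=
    (LinearMap.continuous_of_finiteDimensional _).measurable
  have h2 : ∫⁻ t, f (t / d) = ∫⁻ t, f (((d : ℝ)⁻¹ • (LinearMap.id : ℝ →ₗ[ℝ] ℝ)) t) := by
    apply lintegral_congr
    intro t
    rw [LinearMap.smul_apply, LinearMap.id_apply, smul_eq_mul, inv_mul_eq_div]
  rw [h2, ← lintegral_map hf hm, h, lintegral_smul_measure, smul_eq_mul]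

theorem Idd_block {n : ℕ} (d : ℕ) (hd : 1 ≤ d) (h' : MM n) (hh : (Matrix.of h').det ≠ 0) :
    Idd d (fun i => (Fin.cons 0 (h' i) : Fin (n + 1) → ℝ)) =
      c1 * ∫⁻ z, Fd (Matrix.of h')⁻¹ d z ∂((volume : Measure ℝ).prod (gam n)) := by
  have hm : Measurable fun z : ℝ × (Fin n → ℝ) => Fd (Matrix.of h')⁻¹ d z := meas_Fd _ d
  rw [lintegral_prod_symm _ hm.aemeasurable, ← lintegral_const_mul _ hm.lintegral_prod_left']
  unfold Idd
  have h1 := lint_cons ga1 n _ (meas_g n d (fun i => (Fin.cons 0 (h' i) : Fin (n + 1) → ℝ)))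
  unfold gam at h1 ⊢
  rw [h1]
  apply lintegral_congr
  intro p
  have hmr : Measurable fun t : ℝ => (d : ℝ≥0∞) * rho (Matrix.of h')⁻¹ p |t| ^ d := by
    have e1 : Measurable fun t : ℝ => ((|t|, p) : ℝ × (Fin n → ℝ)) := measurable_norm.prodMk measurable_const
    exact (((meas_rho (Matrix.of h')⁻¹).comp e1).pow_const d).const_mul _
  have hmr2 : Measurable fun t : ℝ => g1 t * rho (Matrix.of h')⁻¹ p |t| ^ d := by
    have e1 : Measurable fun t : ℝ => ((|t|, p) : ℝ × (Fin n → ℝ)) := measurable_norm.prodMk measurable_const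
    exact measurable_g1.mul (((meas_rho (Matrix.of h')⁻¹).comp e1).pow_const d)
  have h0 : ∀ᵐ s ∂ga1, s ≠ 0 := by
    have := nullSingletonClass_gaussianReal (μ := 0) (v := 1) one_ne_zero
    have : ga1 {0} = 0 := measure_singleton 0
    exact compl_mem_ae_iff.2 this
  calc ∫⁻ t, (d : ℝ≥0∞) * (2 * ang (Fin.cons (Fin.cons t p : Fin (n + 1) → ℝ)
          (fun i => (Fin.cons 0 (h' i) : Fin (n + 1) → ℝ)) : MM (n + 1))) ^ d ∂ga1
      = ∫⁻ t, (d : ℝ≥0∞) * rho (Matrix.of h')⁻¹ p |t| ^ d ∂ga1 := by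
        apply lintegral_congr_ae
        filter_upwards [h0] with t ht
        have := ang_Mt t ht p h' hh
        rw [← this]
        rfl
    _ = c1 * ∫⁻ t, g1 t * ((d : ℝ≥0∞) * rho (Matrix.of h')⁻¹ p |t| ^ d) := lint_ga1 _ hmr
    _ = c1 * (d * ∫⁻ t, g1 t * rho (Matrix.of h')⁻¹ p |t| ^ d) := by
        rw [← lintegral_const_mul _ hmr2]
        congr 1
        apply lintegral_congr
        intro t
        ring
    _ = c1 * ∫⁻ t, Fd (Matrix.of h')⁻¹ d (t, p) := by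
        rw [← scale1 _ hmr2 d hd]
        congr 1
        apply lintegral_congr
        intro t
        unfold Fd
        show g1 (t / d) * rho (Matrix.of h')⁻¹ p |t / d| ^ d = g1 (t / d) * rho (Matrix.of h')⁻¹ p (|t| / d) ^ d
        rw [abs_div, Nat.abs_cast]

theorem good_ae (n : ℕ) : ∀ᵐ h ∂(Gam n (n + 1)), ∃ g : Fin (n + 1) → ℝ,
    (Matrix.of (Fin.cons g h : MM (n + 1))).det ≠ 0 := by
  have h1 : ∀ᵐ H ∂(Gam (n + 1) (n + 1)), (Matrix.of H).det ≠ 0 := by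
    rw [Gam_dens]
    exact (withDensity_absolutelyContinuous _ _).ae_le (det_ae (n := n + 1))
  have h2 : ∀ᵐ z ∂((gam (n + 1)).prod (Gam n (n + 1))),
      (Matrix.of (Fin.cons z.1 z.2 : MM (n + 1))).det ≠ 0 :=
    (mp_cons (gam (n + 1)) n).quasiMeasurePreserving.ae h1
  have h3 : ∀ᵐ z ∂((Gam n (n + 1)).prod (gam (n + 1))),
      (Matrix.of (Fin.cons z.2 z.1 : MM (n + 1))).det ≠ 0 :=
    Measure.measurePreserving_swap.quasiMeasurePreserving.ae h2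
  have h4 := Measure.ae_ae_of_ae_prod h3
  filter_upwards [h4] with h hh
  exact hh.exists

/-- **asymptotics of the Gaussian moments** -/
theorem asym (m : ℕ) : ∃ L : ℝ≥0∞, L ≠ 0 ∧ L ≠ ⊤ ∧
    Tendsto (fun d : ℕ => ∫⁻ H, (d : ℝ≥0∞) * (2 * ang H) ^ d ∂(Gam (m + 2) (m + 2))) atTop (𝓝 L) := by
  have key : ∀ᵐ h ∂(Gam (m + 1) (m + 2)), (∀ d : ℕ, 1 ≤ d → Idd d h ≤ c1 * Bm m) ∧
      ∃ L : ℝ≥0∞, L ≠ 0 ∧ Tendsto (fun d : ℕ => Idd d h) atTop (𝓝 L) := by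
    filter_upwards [good_ae (m + 1)] with h hg
    obtain ⟨g, hg⟩ := hg
    obtain ⟨O, hO, h', hh', hr⟩ := good_rot h g hg
    have hK : ((Matrix.of h')⁻¹).det ≠ 0 := by
      rw [det_nonsing_inv, Ring.inverse_eq_inv']
      exact inv_ne_zero hh'
    have hI : ∀ d : ℕ, 1 ≤ d → Idd d h =
        c1 * ∫⁻ z, Fd (Matrix.of h')⁻¹ d z ∂((volume : Measure ℝ).prod (gam (m + 1))) := by
      intro d hd
      rw [← Idd_rot d h hO, hr]
      exact Idd_block d hd h' hh'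
    obtain ⟨hb, L, hL0, hL⟩ := J_lim (Matrix.of h')⁻¹ hK
    refine ⟨?_, c1 * L, mul_ne_zero c1_ne_zero hL0, ?_⟩
    · intro d hd
      rw [hI d hd]
      gcongr
      exact hb d hd
    · apply (ENNReal.Tendsto.const_mul hL (Or.inr c1_ne_top)).congr'
      filter_upwards [eventually_ge_atTop 1] with d hd
      exact (hI d hd).symm
  classical
  have hex : ∀ h : Fin (m + 1) → Fin (m + 2) → ℝ, ∃ L : ℝ≥0∞,
      ((∃ L : ℝ≥0∞, L ≠ 0 ∧ Tendsto (fun d : ℕ => Idd d h) atTop (𝓝 L)) →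
        L ≠ 0 ∧ Tendsto (fun d : ℕ => Idd d h) atTop (𝓝 L)) := by
    intro h
    by_cases hc : ∃ L : ℝ≥0∞, L ≠ 0 ∧ Tendsto (fun d : ℕ => Idd d h) atTop (𝓝 L)
    · obtain ⟨L, hL⟩ := hc
      exact ⟨L, fun _ => hL⟩
    · exact ⟨0, fun h => absurd h hc⟩
  choose Lf hLf using hex
  have hlim : ∀ᵐ h ∂(Gam (m + 1) (m + 2)), Tendsto (fun d : ℕ => Idd d h) atTop (𝓝 (Lf h)) := by
    filter_upwards [key] with h hh
    exact (hLf h hh.2).2
  have hne : ∀ᵐ h ∂(Gam (m + 1) (m + 2)), Lf h ≠ 0 := by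
    filter_upwards [key] with h hh
    exact (hLf h hh.2).1
  have hB : c1 * Bm m ≠ ⊤ := ENNReal.mul_ne_top c1_ne_top (Bm_ne_top m)
  have hbd : ∀ d : ℕ, 1 ≤ d → ∀ᵐ h ∂(Gam (m + 1) (m + 2)), Idd d h ≤ c1 * Bm m := by
    intro d hd
    filter_upwards [key] with h hh
    exact hh.1 d hd
  have hLb : ∀ᵐ h ∂(Gam (m + 1) (m + 2)), Lf h ≤ c1 * Bm m := by
    filter_upwards [key, hlim] with h hh hl
    apply le_of_tendsto hl
    filter_upwards [eventually_ge_atTop 1] with d hd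
    exact hh.1 d hd
  have hconst : ∫⁻ _, c1 * Bm m ∂(Gam (m + 1) (m + 2)) = c1 * Bm m := by
    rw [lintegral_const, measure_univ, mul_one]
  refine ⟨∫⁻ h, Lf h ∂(Gam (m + 1) (m + 2)), ?_, ?_, ?_⟩
  · have hm : AEMeasurable Lf (Gam (m + 1) (m + 2)) :=
      aemeasurable_of_tendsto_metrizable_ae atTop (fun d => (meas_Idd (m + 1) d).aemeasurable) hlim
    intro h0
    rw [lintegral_eq_zero_iff' hm] at h0
    have : ∀ᵐ h ∂(Gam (m + 1) (m + 2)), False := by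
      filter_upwards [h0, hne] with h h1 h2
      exact h2 h1
    rw [eventually_false_iff_eq_bot, ae_eq_bot] at this
    have h1 : (Gam (m + 1) (m + 2)) univ = 1 := measure_univ
    rw [this] at h1
    simp at h1
  · apply ne_top_of_le_ne_top hB
    rw [← hconst]
    exact lintegral_mono_ae hLb
  · have hF : Tendsto (fun d : ℕ => ∫⁻ h, Idd (d + 1) h ∂(Gam (m + 1) (m + 2))) atTop
        (𝓝 (∫⁻ h, Lf h ∂(Gam (m + 1) (m + 2)))) := by
      apply tendsto_lintegral_of_dominated_convergence (fun _ => c1 * Bm m)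
      · intro d
        exact meas_Idd _ _
      · intro d
        exact hbd (d + 1) (Nat.le_add_left 1 d)
      · rw [hconst]
        exact hB
      · filter_upwards [hlim] with h hh
        exact hh.comp (tendsto_add_atTop_nat 1)
    have := (tendsto_add_atTop_iff_nat (f := fun d : ℕ => ∫⁻ h, Idd d h ∂(Gam (m + 1) (m + 2))) 1).1 hF
    apply this.congr
    intro d
    exact (split_all (m + 1) d).symm

/-- **asymptotics of the moments, Gaussian form** -/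
theorem asym_moment (k : ℕ) (hk : 2 ≤ k) : ∃ L : ℝ≥0∞, L ≠ 0 ∧ L ≠ ⊤ ∧
    Tendsto (fun d : ℕ => (2 : ℝ≥0∞) ^ d * d * ∫⁻ G, ang G ^ k ∂(Gam d d)) atTop (𝓝 L) := by
  obtain ⟨m, rfl⟩ : ∃ m, k = m + 2 := ⟨k - 2, by omega⟩
  obtain ⟨L, h1, h2, h3⟩ := asym m
  refine ⟨L, h1, h2, ?_⟩
  apply h3.congr
  intro d
  rw [dual_moment, ← lintegral_const_mul _ ((measurable_ang (m + 2)).pow_const d)]
  apply lintegral_congr
  intro H
  rw [mul_pow]
  ring

end Q298.Sol
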