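import Mathlib
import Pool.Agent.Q298.Sol.A5

set_option autoImplicit false
set_option maxHeartbeats 1000000
open Matrix MeasureTheory Set ProbabilityTheory Q298.Sv Filter
open scoped ENNReal Topology

namespace Q298.Sol

/-- Euclidean space `ℝ^d` -/
abbrev Eu (d : ℕ) := EuclideanSpace ℝ (Fin d)

/-- the unit sphere of `ℝ^d` -/
abbrev Sph (d : ℕ) := Metric.sphere (0 : Eu d) 1

/-- the uniform distribution on the unit sphere: normalised surface measure -/
noncomputable def sph (d : ℕ) : Measure (Sph d) :=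
  ((volume : Measure (Eu d)).toSphere univ)⁻¹ • (volume : Measure (Eu d)).toSphere

instance (d : ℕ) : IsFiniteMeasure (sph d) := by
  refine ⟨?_⟩
  unfold sph
  rw [Measure.smul_apply, smul_eq_mul]
  calc _ ≤ (1 : ℝ≥0∞) := ENNReal.inv_mul_le_one _
    _ < ⊤ := ENNReal.one_lt_top

/-- polar coordinates -/
theorem polar {d : ℕ} (f : Eu (d + 1) → ℝ≥0∞) (hf : Measurable f) :
    ∫⁻ v, f v = ∫⁻ z : Sph (d + 1) × Ioi (0 : ℝ), f (z.2.1 • z.1.1)
      ∂((volume : Measure (Eu (d + 1))).toSphere.prod (Measure.volumeIoiPow (Module.finrank ℝ (Eu (d + 1)) - 1))) := by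
  have hmp := (volume : Measure (Eu (d + 1))).measurePreserving_homeomorphUnitSphereProd
  have hg : Measurable fun z : Sph (d + 1) × Ioi (0 : ℝ) => f (z.2.1 • z.1.1) := by
    apply hf.comp
    exact (measurable_subtype_coe.comp measurable_snd).smul (measurable_subtype_coe.comp measurable_fst)
  rw [← hmp.lintegral_comp hg]
  have h1 : ∀ x : ({0}ᶜ : Set (Eu (d + 1))),
      f (((homeomorphUnitSphereProd (Eu (d + 1))) x).2.1 • ((homeomorphUnitSphereProd (Eu (d + 1))) x).1.1) = f x.1 := by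
    intro x
    have hx : ‖x.1‖ ≠ 0 := norm_ne_zero_iff.2 x.2
    congr 1
    rw [homeomorphUnitSphereProd_apply_snd_coe, homeomorphUnitSphereProd_apply_fst_coe, smul_smul,
      mul_inv_cancel₀ hx, one_smul]
  simp only [h1]
  rw [lintegral_subtype_comap (measurableSet_singleton _).compl (fun x => f x), restrict_compl_singleton]

/-- the direction of a vector -/
noncomputable def Nm {d : ℕ} (v : Fin (d + 1) → ℝ) : Sph (d + 1) :=
  if h : v = 0 then ⟨WithLp.toLp 2 (Pi.single 0 1), by simp⟩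
  else ⟨‖(WithLp.toLp 2 v : Eu (d + 1))‖⁻¹ • WithLp.toLp 2 v, by
    have : ‖(WithLp.toLp 2 v : Eu (d + 1))‖ ≠ 0 := by
      rw [norm_ne_zero_iff]
      simpa using h
    simp [norm_smul, this]⟩

theorem coe_Nm {d : ℕ} (v : Fin (d + 1) → ℝ) (hv : v ≠ 0) :
    (Nm v : Eu (d + 1)) = ‖(WithLp.toLp 2 v : Eu (d + 1))‖⁻¹ • WithLp.toLp 2 v := by
  unfold Nm
  rw [dif_neg hv]

open Classical in
theorem measurable_Nm {d : ℕ} : Measurable (Nm : (Fin (d + 1) → ℝ) → Sph (d + 1)) := by
  have h : Measurable fun v : Fin (d + 1) → ℝ => (Nm v : Eu (d + 1)) := by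
    have h1 : Measurable fun v : Fin (d + 1) → ℝ => if v = 0 then (WithLp.toLp 2 (Pi.single 0 1) : Eu (d + 1))
        else ‖(WithLp.toLp 2 v : Eu (d + 1))‖⁻¹ • (WithLp.toLp 2 v : Eu (d + 1)) := by
      apply Measurable.ite (measurableSet_singleton 0) measurable_const
      have h2 : Measurable fun v : Fin (d + 1) → ℝ => (WithLp.toLp 2 v : Eu (d + 1)) :=
        (PiLp.volume_preserving_toLp (Fin (d + 1))).measurable
      exact h2.norm.inv.smul h2
    convert h1 using 1
    funext v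
    by_cases hv : v = 0
    · rw [if_pos hv]
      unfold Nm
      rw [dif_pos hv]
    · rw [if_neg hv]
      exact coe_Nm v hv
  exact (MeasurableEmbedding.subtype_coe (Metric.isClosed_sphere.measurableSet)).measurable_comp_iff.1 h

theorem Nm_smul {d : ℕ} (u : Sph (d + 1)) (r : ℝ) (hr : 0 < r) : Nm (WithLp.ofLp (r • (u : Eu (d + 1)))) = u := by
  have hu : ‖(u : Eu (d + 1))‖ = 1 := by
    have := u.2
    rwa [mem_sphere_zero_iff_norm] at this
  have h0 : WithLp.ofLp (r • (u : Eu (d + 1))) ≠ 0 := by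
    intro h
    have h1 : r • (u : Eu (d + 1)) = 0 := by
      rw [← WithLp.toLp_ofLp 2 (r • (u : Eu (d + 1))), h]
      rfl
    have h2 : ‖r • (u : Eu (d + 1))‖ = 0 := by rw [h1, norm_zero]
    rw [norm_smul, hu, mul_one, Real.norm_eq_abs, abs_eq_zero] at h2
    exact hr.ne' h2
  apply Subtype.ext
  rw [coe_Nm _ h0, WithLp.toLp_ofLp, norm_smul, hu, mul_one, Real.norm_eq_abs, abs_of_pos hr, smul_smul,
    inv_mul_cancel₀ hr.ne', one_smul]

theorem gv_norm {d : ℕ} (w : Eu d) : gv (WithLp.ofLp w) = ENNReal.ofReal (Real.exp (-‖w‖ ^ 2 / 2)) := by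
  unfold gv
  rw [EuclideanSpace.norm_sq_eq]
  simp only [Real.norm_eq_abs, sq_abs]

/-- the direction of a Gaussian vector is uniform -/
theorem law_Nm (d : ℕ) : MeasurePreserving (Nm : (Fin (d + 1) → ℝ) → Sph (d + 1)) (gam (d + 1)) (sph (d + 1)) := by
  refine ⟨measurable_Nm, ?_⟩
  have hof : Measurable fun w : Eu (d + 1) => (WithLp.ofLp w : Fin (d + 1) → ℝ) :=
    (PiLp.volume_preserving_ofLp (Fin (d + 1))).measurable
  set C : ℝ≥0∞ := c1 ^ (d + 1) * ∫⁻ r : Ioi (0 : ℝ), ENNReal.ofReal (Real.exp (-r.1 ^ 2 / 2))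
      ∂(Measure.volumeIoiPow (Module.finrank ℝ (Eu (d + 1)) - 1)) with hC
  have key : ∀ s : Set (Sph (d + 1)), MeasurableSet s →
      gam (d + 1) (Nm ⁻¹' s) = C * (volume : Measure (Eu (d + 1))).toSphere s := by
    intro s hs
    have hs' := measurable_Nm (d := d) hs
    have hmf : Measurable fun v : Fin (d + 1) → ℝ => gv v * (Nm ⁻¹' s).indicator (1 : (Fin (d + 1) → ℝ) → ℝ≥0∞) v :=
      measurable_gv.mul (measurable_one.indicator hs')
    rw [← lintegral_indicator_one hs', lint_gam _ (measurable_one.indicator hs')]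
    have q1 : ∫⁻ v : Fin (d + 1) → ℝ, gv v * (Nm ⁻¹' s).indicator (1 : (Fin (d + 1) → ℝ) → ℝ≥0∞) v =
        ∫⁻ w : Eu (d + 1), gv (WithLp.ofLp w) * (Nm ⁻¹' s).indicator (1 : (Fin (d + 1) → ℝ) → ℝ≥0∞) (WithLp.ofLp w) :=
      ((PiLp.volume_preserving_ofLp (Fin (d + 1))).lintegral_comp hmf).symm
    have q2 := polar (fun w : Eu (d + 1) => gv (WithLp.ofLp w) *
      (Nm ⁻¹' s).indicator (1 : (Fin (d + 1) → ℝ) → ℝ≥0∞) (WithLp.ofLp w)) (hmf.comp hof)
    rw [q1, q2]
    have h1 : ∀ z : Sph (d + 1) × Ioi (0 : ℝ),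
        gv (WithLp.ofLp (z.2.1 • (z.1 : Eu (d + 1)))) * (Nm ⁻¹' s).indicator (1 : (Fin (d + 1) → ℝ) → ℝ≥0∞)
          (WithLp.ofLp (z.2.1 • (z.1 : Eu (d + 1)))) =
        s.indicator (1 : Sph (d + 1) → ℝ≥0∞) z.1 * ENNReal.ofReal (Real.exp (-z.2.1 ^ 2 / 2)) := by
      rintro ⟨u, r⟩
      have hu : ‖(u : Eu (d + 1))‖ = 1 := by
        have := u.2
        rwa [mem_sphere_zero_iff_norm] at this
      have hr : 0 < r.1 := r.2
      show gv (WithLp.ofLp (r.1 • (u : Eu (d + 1)))) * (Nm ⁻¹' s).indicator (1 : (Fin (d + 1) → ℝ) → ℝ≥0∞)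
          (WithLp.ofLp (r.1 • (u : Eu (d + 1)))) =
        s.indicator (1 : Sph (d + 1) → ℝ≥0∞) u * ENNReal.ofReal (Real.exp (-r.1 ^ 2 / 2))
      rw [gv_norm, norm_smul, hu, mul_one, Real.norm_eq_abs, sq_abs, mul_comm]
      congr 1
      by_cases hus : u ∈ s
      · rw [indicator_of_mem hus, indicator_of_mem]
        · rfl
        · rw [mem_preimage, Nm_smul u _ hr]
          exact hus
      · rw [indicator_of_notMem hus, indicator_of_notMem]
        rw [mem_preimage, Nm_smul u _ hr]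
        exact hus
    simp only [h1]
    have e1 : AEMeasurable (s.indicator (1 : Sph (d + 1) → ℝ≥0∞)) (volume : Measure (Eu (d + 1))).toSphere :=
      (measurable_one.indicator hs).aemeasurable
    have e2 : AEMeasurable (fun r : Ioi (0 : ℝ) => ENNReal.ofReal (Real.exp (-r.1 ^ 2 / 2)))
        (Measure.volumeIoiPow (Module.finrank ℝ (Eu (d + 1)) - 1)) := by
      have : Measurable fun r : Ioi (0 : ℝ) => ENNReal.ofReal (Real.exp (-r.1 ^ 2 / 2)) :=
        ENNReal.measurable_ofReal.comp (continuous_exp_sq.measurable.comp measurable_subtype_coe)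
      exact this.aemeasurable
    have := lintegral_prod_mul e1 e2
    rw [this, lintegral_indicator_one hs, hC]
    ring
  have h1 := key univ MeasurableSet.univ
  rw [preimage_univ, measure_univ] at h1
  have hCi : C = ((volume : Measure (Eu (d + 1))).toSphere univ)⁻¹ := ENNReal.eq_inv_of_mul_eq_one_left h1.symm
  apply Measure.ext
  intro s hs
  rw [Measure.map_apply measurable_Nm hs, key s hs, sph, Measure.smul_apply, smul_eq_mul, hCi]

end Q298.Sol
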