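import Mathlib
import Pool.Agent.Q298.Sol.Polar

set_option autoImplicit false
set_option maxHeartbeats 1000000
open Matrix MeasureTheory Set ProbabilityTheory Q298.Sv Filter
open scoped ENNReal Topology

namespace Q298.Sol

/-- the positive hull `pos(x_1, …, x_n)` of finitely many vectors of `ℝ^d` -/
def pos {n d : ℕ} (x : Fin n → Eu d) : Set (Eu d) :=
  {y | ∃ l : Fin n → ℝ, (∀ i, 0 ≤ l i) ∧ y = ∑ i, l i • x i}

/-- the normalised solid angle of a subset `C` of `ℝ^d` (a cone): the uniform probability of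
`C ∩ S^{d-1}` -/
noncomputable def solidAngle {d : ℕ} (C : Set (Eu d)) : ℝ :=
  ((sph d) {u : Sph d | (u : Eu d) ∈ C}).toReal

/-- the joint law of `n` independent uniform points `U_1, …, U_n` of the sphere `S^{d-1}` -/
noncomputable def iid (n d : ℕ) : Measure (Fin n → Sph d) := Measure.pi fun _ : Fin n => sph d

/-- the array of the coordinates -/
def arr {d : ℕ} (U : Fin d → Sph d) : MM d := fun i => WithLp.ofLp (U i : Eu d)

theorem measurable_arr {d : ℕ} : Measurable (arr : (Fin d → Sph d) → MM d) := by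
  rw [measurable_pi_iff]
  intro i
  have hof : Measurable fun w : Eu d => (WithLp.ofLp w : Fin d → ℝ) :=
    (PiLp.volume_preserving_ofLp (Fin d)).measurable
  exact hof.comp (measurable_subtype_coe.comp (measurable_pi_apply i))

theorem mem_pos_iff {d : ℕ} (U : Fin d → Sph d) (hU : (Matrix.of (arr U)).det ≠ 0) (y : Eu d) :
    y ∈ pos (fun i => (U i : Eu d)) ↔ ∀ i, 0 ≤ (WithLp.ofLp y ᵥ* (Matrix.of (arr U))⁻¹) i := by
  have hu : IsUnit (Matrix.of (arr U)).det := isUnit_iff_ne_zero.2 hU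
  have hsum : ∀ l : Fin d → ℝ, WithLp.ofLp (∑ i, l i • (U i : Eu d)) = l ᵥ* Matrix.of (arr U) := by
    intro l
    funext j
    simp [vecMul, dotProduct, arr]
  constructor
  · rintro ⟨l, hl, rfl⟩ i
    rw [hsum, vecMul_vecMul, mul_nonsing_inv _ hu, vecMul_one]
    exact hl i
  · intro h
    refine ⟨WithLp.ofLp y ᵥ* (Matrix.of (arr U))⁻¹, h, ?_⟩
    have h1 : WithLp.ofLp y = WithLp.ofLp (∑ i, (WithLp.ofLp y ᵥ* (Matrix.of (arr U))⁻¹) i • (U i : Eu d)) := by
      rw [hsum, vecMul_vecMul, nonsing_inv_mul _ hu, vecMul_one]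
    exact (WithLp.ofLp_injective 2 h1)

theorem cone_smul {d : ℕ} (K : Matrix (Fin d) (Fin d) ℝ) (v : Fin d → ℝ) (r : ℝ) (hr : 0 < r) :
    (∀ i, 0 ≤ ((r • v) ᵥ* K) i) ↔ ∀ i, 0 ≤ (v ᵥ* K) i := by
  rw [smul_vecMul]
  simp only [Pi.smul_apply, smul_eq_mul]
  constructor
  · intro h i
    have := h i
    by_contra hc
    push Not at hc
    nlinarith
  · intro h i
    exact mul_nonneg hr.le (h i)

theorem gam_ne_ae (d : ℕ) : ∀ᵐ v ∂(gam (d + 1)), v ≠ 0 := by
  have h : ∀ᵐ v : Fin (d + 1) → ℝ, v ≠ 0 := by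
    have : volume ({0} : Set (Fin (d + 1) → ℝ)) = 0 := measure_singleton 0
    exact compl_mem_ae_iff.2 this
  unfold gam
  rw [pi_gauss]
  exact (withDensity_absolutelyContinuous _ _).ae_le h

theorem ofLp_Nm {d : ℕ} (v : Fin (d + 1) → ℝ) (hv : v ≠ 0) :
    ∃ r : ℝ, 0 < r ∧ WithLp.ofLp (Nm v : Eu (d + 1)) = r • v := by
  have : ‖(WithLp.toLp 2 v : Eu (d + 1))‖ ≠ 0 := by
    rw [norm_ne_zero_iff]
    simpa using hv
  refine ⟨‖(WithLp.toLp 2 v : Eu (d + 1))‖⁻¹, inv_pos.2 (lt_of_le_of_ne (norm_nonneg _) this.symm), ?_⟩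
  rw [coe_Nm v hv]
  rfl

theorem meas_coneS {d : ℕ} (K : Matrix (Fin d) (Fin d) ℝ) :
    MeasurableSet {u : Sph d | ∀ i, 0 ≤ (WithLp.ofLp (u : Eu d) ᵥ* K) i} := by
  have hof : Measurable fun w : Eu d => (WithLp.ofLp w : Fin d → ℝ) :=
    (PiLp.volume_preserving_ofLp (Fin d)).measurable
  have h : {u : Sph d | ∀ i, 0 ≤ (WithLp.ofLp (u : Eu d) ᵥ* K) i} =
    ⋂ i, {u : Sph d | 0 ≤ (WithLp.ofLp (u : Eu d) ᵥ* K) i} := by
    ext u
    rw [mem_iInter]
    rfl
  rw [h]
  refine MeasurableSet.iInter fun i => measurableSet_le measurable_const ?_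
  exact (measurable_pi_apply i).comp ((meas_vm K).comp (hof.comp measurable_subtype_coe))

theorem sph_cone {d : ℕ} (K : Matrix (Fin (d + 1)) (Fin (d + 1)) ℝ) :
    sph (d + 1) {u | ∀ i, 0 ≤ (WithLp.ofLp (u : Eu (d + 1)) ᵥ* K) i} = gam (d + 1) {v | ∀ i, 0 ≤ (v ᵥ* K) i} := by
  rw [← (law_Nm d).measure_preimage (meas_coneS K).nullMeasurableSet]
  apply measure_congr
  filter_upwards [gam_ne_ae d] with v hv
  apply propext
  show (∀ i, 0 ≤ (WithLp.ofLp (Nm v : Eu (d + 1)) ᵥ* K) i) ↔ ∀ i, 0 ≤ (v ᵥ* K) i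
  obtain ⟨r, hr, h⟩ := ofLp_Nm v hv
  rw [h, cone_smul K v r hr]

theorem sph_pos {d : ℕ} (U : Fin (d + 1) → Sph (d + 1)) (hU : (Matrix.of (arr U)).det ≠ 0) :
    sph (d + 1) {u : Sph (d + 1) | (u : Eu (d + 1)) ∈ pos (fun i => (U i : Eu (d + 1)))} = ang (arr U) := by
  have h : ({u : Sph (d + 1) | (u : Eu (d + 1)) ∈ pos (fun i => (U i : Eu (d + 1)))} : Set (Sph (d + 1))) =
      ({u : Sph (d + 1) | ∀ i, 0 ≤ (WithLp.ofLp (u : Eu (d + 1)) ᵥ* (Matrix.of (arr U))⁻¹) i} : Set (Sph (d + 1))) := by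
    apply Set.ext
    intro u
    exact mem_pos_iff U hU _
  rw [h, sph_cone]
  rfl

theorem ang_scale {d : ℕ} (G : MM d) (r : Fin d → ℝ) (hr : ∀ i, 0 < r i) : ang (fun i => r i • G i) = ang G := by
  have h1 : Matrix.of (fun i => r i • G i) = diagonal r * Matrix.of G := by
    ext i j
    simp [diagonal_mul]
  have h2 : (diagonal r)⁻¹ = diagonal (fun i => (r i)⁻¹) := by
    apply inv_eq_left_inv
    rw [diagonal_mul_diagonal]
    have : (fun i => (r i)⁻¹ * r i) = fun _ => (1 : ℝ) := by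
      funext i
      exact inv_mul_cancel₀ (hr i).ne'
    rw [this, diagonal_one]
  unfold ang
  rw [h1, Matrix.mul_inv_rev, h2]
  congr 1
  ext v
  show (∀ i, 0 ≤ (v ᵥ* ((Matrix.of G)⁻¹ * diagonal fun i => (r i)⁻¹)) i) ↔ ∀ i, 0 ≤ (v ᵥ* (Matrix.of G)⁻¹) i
  apply forall_congr'
  intro i
  rw [← vecMul_vecMul, vecMul_diagonal]
  have := inv_pos.2 (hr i)
  constructor
  · intro h
    by_contra hc
    push Not at hc
    nlinarith
  · intro h
    positivity

theorem row_ne {d : ℕ} (G : MM d) (hG : (Matrix.of G).det ≠ 0) (i : Fin d) : G i ≠ 0 := by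
  intro h
  apply hG
  apply det_eq_zero_of_row_eq_zero i
  intro j
  exact congrFun h j

theorem arr_Nm {d : ℕ} (G : MM (d + 1)) (hG : (Matrix.of G).det ≠ 0) :
    ∃ r : Fin (d + 1) → ℝ, (∀ i, 0 < r i) ∧ arr (fun i => Nm (G i)) = fun i => r i • G i := by
  choose r hr h using fun i => ofLp_Nm (G i) (row_ne G hG i)
  exact ⟨r, hr, funext fun i => h i⟩

theorem iid_mp (n d : ℕ) : MeasurePreserving (fun (G : Fin n → Fin (d + 1) → ℝ) (i : Fin n) => Nm (G i))
    (Gam n (d + 1)) (iid n (d + 1)) :=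
  measurePreserving_pi (fun _ : Fin n => gam (d + 1)) (fun _ : Fin n => sph (d + 1)) (fun _ => law_Nm d)

/-- the law of the random solid angle -/
theorem law_angle (d : ℕ) (F : ℝ≥0∞ → ℝ≥0∞) (hF : Measurable F) :
    ∫⁻ U, F (ang (arr U)) ∂(iid (d + 1) (d + 1)) = ∫⁻ G, F (ang G) ∂(Gam (d + 1) (d + 1)) := by
  have hm : Measurable fun U : Fin (d + 1) → Sph (d + 1) => F (ang (arr U)) :=
    hF.comp ((measurable_ang (d + 1)).comp measurable_arr)
  rw [← (iid_mp (d + 1) d).lintegral_comp hm]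
  apply lintegral_congr_ae
  have h1 : ∀ᵐ H ∂(Gam (d + 1) (d + 1)), (Matrix.of H).det ≠ 0 := by
    rw [Gam_dens]
    exact (withDensity_absolutelyContinuous _ _).ae_le (det_ae (n := d + 1))
  filter_upwards [h1] with G hG
  obtain ⟨r, hr, h⟩ := arr_Nm G hG
  rw [h, ang_scale G r hr]

theorem det_arr_ae (d : ℕ) : ∀ᵐ U ∂(iid (d + 1) (d + 1)), (Matrix.of (arr U)).det ≠ 0 := by
  have hs : MeasurableSet {U : Fin (d + 1) → Sph (d + 1) | (Matrix.of (arr U)).det ≠ 0} := by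
    have : Measurable fun U : Fin (d + 1) → Sph (d + 1) => (Matrix.of (arr U)).det :=
      continuous_det_of.measurable.comp measurable_arr
    exact this (measurableSet_singleton 0).compl
  rw [← (iid_mp (d + 1) d).map_eq, ae_map_iff (iid_mp (d + 1) d).measurable.aemeasurable hs]
  have h1 : ∀ᵐ H ∂(Gam (d + 1) (d + 1)), (Matrix.of H).det ≠ 0 := by
    rw [Gam_dens]
    exact (withDensity_absolutelyContinuous _ _).ae_le (det_ae (n := d + 1))
  filter_upwards [h1] with G hG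
  obtain ⟨r, hr, h⟩ := arr_Nm G hG
  rw [h]
  have h2 : Matrix.of (fun i => r i • G i) = diagonal r * Matrix.of G := by
    ext i j
    simp [diagonal_mul]
  rw [h2, det_mul, det_diagonal]
  exact mul_ne_zero (Finset.prod_ne_zero_iff.2 fun i _ => (hr i).ne') hG

/-- the random solid angle equals `ang` almost surely -/
theorem solid_ae (d : ℕ) : ∀ᵐ U ∂(iid (d + 1) (d + 1)),
    solidAngle (pos fun i => (U i : Eu (d + 1))) = (ang (arr U)).toReal := by
  filter_upwards [det_arr_ae d] with U hU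
  unfold solidAngle
  rw [sph_pos U hU]

/-- the moments `m(d,k)` of the solid angle of the random cone -/
noncomputable def moment (d k : ℕ) : ℝ :=
  ∫ U, solidAngle (pos fun i => (U i : Eu d)) ^ k ∂(iid d d)

theorem ang_le_one {d : ℕ} (G : MM d) : ang G ≤ 1 := prob_le_one

theorem moment_eq (d k : ℕ) : moment (d + 1) k = (∫⁻ G, ang G ^ k ∂(Gam (d + 1) (d + 1))).toReal := by
  unfold moment
  rw [← law_angle d (fun x => x ^ k) (by fun_prop)]
  have hm : Measurable fun U : Fin (d + 1) → Sph (d + 1) => ang (arr U) ^ k :=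
    ((measurable_ang (d + 1)).comp measurable_arr).pow_const k
  rw [← integral_toReal hm.aemeasurable]
  · apply integral_congr_ae
    filter_upwards [solid_ae d] with U hU
    rw [hU, ENNReal.toReal_pow]
  · apply Eventually.of_forall
    intro U
    exact lt_of_le_of_lt (pow_le_one₀ zero_le (ang_le_one _)) ENNReal.one_lt_top

/-- **main theorem** -/
theorem main (k : ℕ) (hk : 2 ≤ k) :
    ∃ c : ℝ, 0 < c ∧ Tendsto (fun d : ℕ => 2 ^ d * d * moment d k) atTop (𝓝 c) := by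
  obtain ⟨L, h1, h2, h3⟩ := asym_moment k hk
  refine ⟨L.toReal, ENNReal.toReal_pos h1 h2, ?_⟩
  have h4 := (ENNReal.tendsto_toReal h2).comp h3
  apply h4.congr'
  filter_upwards [eventually_ge_atTop 1] with d hd
  obtain ⟨e, rfl⟩ : ∃ e, d = e + 1 := ⟨d - 1, by omega⟩
  rw [moment_eq, Function.comp_apply, ENNReal.toReal_mul, ENNReal.toReal_mul, ENNReal.toReal_pow,
    ENNReal.toReal_natCast, ENNReal.toReal_ofNat]

end Q298.Sol
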