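import Mathlib
import Pool.Agent.Q298.Sol.Law

set_option autoImplicit false
set_option maxHeartbeats 1000000
open Matrix MeasureTheory Set ProbabilityTheory Q298.Sv Filter
open scoped ENNReal Topology

namespace Q298.Sol

/-- the solid angle `α_d` of the random cone, as a function of the sample -/
noncomputable def alp {d : ℕ} (U : Fin d → Sph d) : ℝ := solidAngle (pos fun i => (U i : Eu d))

/-- the measure `μ_d(A) = 2^d d P[α_d ∈ A]` on `(0,∞)` -/
noncomputable def muD (d : ℕ) : Measure (Ioi (0 : ℝ)) :=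
  ((2 : ℝ≥0∞) ^ d * d) • ((iid d d).map alp).comap Subtype.val

instance (n d : ℕ) : IsFiniteMeasure (iid n d) := by
  unfold iid
  infer_instance

theorem alp_nonneg {d : ℕ} (U : Fin d → Sph d) : 0 ≤ alp U := ENNReal.toReal_nonneg

theorem sph_le_one (d : ℕ) (s : Set (Sph d)) : sph d s ≤ 1 := by
  calc sph d s ≤ sph d univ := measure_mono (subset_univ _)
    _ ≤ 1 := by
      unfold sph
      rw [Measure.smul_apply, smul_eq_mul]
      exact ENNReal.inv_mul_le_one _

theorem alp_le_one {d : ℕ} (U : Fin d → Sph d) : alp U ≤ 1 := by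
  unfold alp solidAngle
  have := ENNReal.toReal_mono ENNReal.one_ne_top (sph_le_one d {u : Sph d | (u : Eu d) ∈ pos fun i => (U i : Eu d)})
  simpa using this

theorem alp_aem (d : ℕ) : AEMeasurable (alp : (Fin (d + 1) → Sph (d + 1)) → ℝ) (iid (d + 1) (d + 1)) := by
  refine ⟨fun U => (ang (arr U)).toReal, ?_, solid_ae d⟩
  exact ((measurable_ang (d + 1)).comp measurable_arr).ennreal_toReal

theorem alp_int (d : ℕ) (G : ℝ → ℝ) (hG : Continuous G) :
    Integrable (fun U => G (alp U)) (iid (d + 1) (d + 1)) := by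
  obtain ⟨C, hC⟩ := isCompact_Icc.exists_bound_of_continuousOn (hG.continuousOn (s := Icc (0 : ℝ) 1))
  apply Integrable.of_bound (hG.measurable.comp_aemeasurable (alp_aem d)).aestronglyMeasurable C
  apply Eventually.of_forall
  intro U
  exact hC _ ⟨alp_nonneg U, alp_le_one U⟩

theorem moment_alp (d k : ℕ) : moment d k = ∫ U, alp U ^ k ∂(iid d d) := rfl

theorem int_muD (d : ℕ) (f : Ioi (0 : ℝ) → ℝ) (F : ℝ → ℝ) (hF : Continuous F) (h1 : ∀ x : Ioi (0 : ℝ), F x = f x)
    (h2 : ∀ x ≤ 0, F x = 0) :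
    ∫ x, f x ∂(muD (d + 1)) = 2 ^ (d + 1) * ((d + 1 : ℕ) : ℝ) * ∫ U, F (alp U) ∂(iid (d + 1) (d + 1)) := by
  unfold muD
  rw [integral_smul_measure]
  have e1 : ∫ x : Ioi (0 : ℝ), f x ∂(((iid (d + 1) (d + 1)).map alp).comap Subtype.val) =
      ∫ x in Ioi (0 : ℝ), F x ∂((iid (d + 1) (d + 1)).map alp) := by
    rw [← integral_subtype_comap measurableSet_Ioi]
    apply integral_congr_ae
    apply Eventually.of_forall
    intro x
    exact (h1 x).symm
  have e2 : ∫ x in Ioi (0 : ℝ), F x ∂((iid (d + 1) (d + 1)).map alp) = ∫ x, F x ∂((iid (d + 1) (d + 1)).map alp) := by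
    apply setIntegral_eq_integral_of_forall_compl_eq_zero
    intro x hx
    exact h2 x (not_lt.1 hx)
  rw [e1, e2, integral_map (alp_aem d) hF.aestronglyMeasurable, smul_eq_mul]
  congr 1

/-- a compactly supported function on `(0,∞)` is `x ^ 2` times a continuous function -/
theorem factor (f : Ioi (0 : ℝ) → ℝ) (hf : Continuous f) (hs : HasCompactSupport f) :
    ∃ G : ℝ → ℝ, Continuous G ∧ (∀ x : Ioi (0 : ℝ), (x : ℝ) ^ 2 * G x = f x) ∧ ∀ x ≤ 0, x ^ 2 * G x = 0 := by
  let f2 : Ioi (0 : ℝ) → ℝ := fun x => f x * ((x : ℝ) ^ 2)⁻¹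
  have hf2 : Continuous f2 := by
    apply hf.mul
    apply Continuous.inv₀ (by fun_prop)
    intro x
    have := x.2
    exact pow_ne_zero _ (ne_of_gt this)
  have hs2 : HasCompactSupport f2 := hs.mul_right
  refine ⟨Function.extend Subtype.val f2 0, HasCompactSupport.continuous_extend_zero isOpen_Ioi hf2 hs2, ?_, ?_⟩
  · intro x
    rw [Subtype.val_injective.extend_apply]
    have hx : (x : ℝ) ≠ 0 := ne_of_gt x.2
    show (x : ℝ) ^ 2 * (f x * ((x : ℝ) ^ 2)⁻¹) = f x
    field_simp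
  · intro x hx
    rw [Function.extend_apply']
    · simp
    · rintro ⟨y, hy⟩
      have := y.2
      rw [mem_Ioi, hy] at this
      linarith

theorem conv_of_approx (a : ℕ → ℝ) (h : ∀ ε > 0, ∃ b : ℕ → ℝ, ∃ l : ℝ, Tendsto b atTop (𝓝 l) ∧
    ∀ᶠ d in atTop, |a d - b d| ≤ ε) : ∃ l, Tendsto a atTop (𝓝 l) := by
  apply cauchySeq_tendsto_of_complete
  rw [Metric.cauchySeq_iff']
  intro ε hε
  obtain ⟨b, l, hb, hab⟩ := h (ε / 5) (by positivity)
  have hb2 := (Metric.tendsto_nhds.1 hb) (ε / 5) (by positivity)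
  obtain ⟨N, hN⟩ := eventually_atTop.1 (hab.and hb2)
  refine ⟨N, fun n hn => ?_⟩
  obtain ⟨h1, h2⟩ := hN n hn
  obtain ⟨h3, h4⟩ := hN N le_rfl
  rw [Real.dist_eq] at h2 h4 ⊢
  rw [abs_lt] at h2 h4 ⊢
  rw [abs_le] at h1 h3
  constructor <;> linarith [h1.1, h1.2, h2.1, h2.2, h3.1, h3.2, h4.1, h4.2]

theorem poly_lim (p : Polynomial ℝ) : ∃ l : ℝ, Tendsto (fun d : ℕ =>
    2 ^ d * (d : ℝ) * ∫ U, alp U ^ 2 * p.eval (alp U) ∂(iid d d)) atTop (𝓝 l) := by
  have h : ∀ i : ℕ, ∃ c : ℝ, Tendsto (fun d : ℕ => 2 ^ d * d * moment d (i + 2)) atTop (𝓝 c) := by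
    intro i
    obtain ⟨c, _, h⟩ := main (i + 2) (by omega)
    exact ⟨c, h⟩
  choose c hc using h
  refine ⟨∑ i ∈ Finset.range (p.natDegree + 1), p.coeff i * c i, ?_⟩
  have h1 : Tendsto (fun d : ℕ => ∑ i ∈ Finset.range (p.natDegree + 1), p.coeff i * (2 ^ d * d * moment d (i + 2)))
      atTop (𝓝 (∑ i ∈ Finset.range (p.natDegree + 1), p.coeff i * c i)) :=
    tendsto_finsetSum _ fun i _ => (hc i).const_mul _
  apply h1.congr'
  filter_upwards [eventually_ge_atTop 1] with d hd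
  obtain ⟨e, rfl⟩ : ∃ e, d = e + 1 := ⟨d - 1, by omega⟩
  have e1 : ∀ U : Fin (e + 1) → Sph (e + 1), alp U ^ 2 * p.eval (alp U) =
      ∑ i ∈ Finset.range (p.natDegree + 1), p.coeff i * alp U ^ (i + 2) := by
    intro U
    rw [Polynomial.eval_eq_sum_range, Finset.mul_sum]
    apply Finset.sum_congr rfl
    intro i _
    ring
  simp only [e1]
  rw [integral_finsetSum, Finset.mul_sum]
  · apply Finset.sum_congr rfl
    intro i _
    rw [integral_const_mul, moment_alp]
    ring
  · intro i _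
    apply Integrable.const_mul
    exact alp_int e (fun x => x ^ (i + 2)) (by fun_prop)

theorem vague_exists (G : ℝ → ℝ) (hG : Continuous G) : ∃ l : ℝ, Tendsto (fun d : ℕ =>
    2 ^ d * (d : ℝ) * ∫ U, alp U ^ 2 * G (alp U) ∂(iid d d)) atTop (𝓝 l) := by
  obtain ⟨c2, hc2, h2⟩ := main 2 le_rfl
  apply conv_of_approx
  intro ε hε
  set δ := ε / (c2 + 1) with hδ
  have hδ0 : 0 < δ := by positivity
  obtain ⟨p, hp⟩ := exists_polynomial_near_of_continuousOn 0 1 G hG.continuousOn δ hδ0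
  obtain ⟨l, hl⟩ := poly_lim p
  refine ⟨_, l, hl, ?_⟩
  have h3 : ∀ᶠ d : ℕ in atTop, 2 ^ d * d * moment d 2 < c2 + 1 := h2.eventually_lt_const (by linarith)
  filter_upwards [eventually_ge_atTop 1, h3] with d hd h3
  obtain ⟨e, rfl⟩ : ∃ e, d = e + 1 := ⟨d - 1, by omega⟩
  have i1 : Integrable (fun U => alp U ^ 2 * G (alp U)) (iid (e + 1) (e + 1)) :=
    alp_int e (fun x => x ^ 2 * G x) (by fun_prop)
  have i2 : Integrable (fun U => alp U ^ 2 * p.eval (alp U)) (iid (e + 1) (e + 1)) :=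
    alp_int e (fun x => x ^ 2 * p.eval x) (by have := p.continuous; fun_prop)
  have i3 : Integrable (fun U => alp U ^ 2 * δ) (iid (e + 1) (e + 1)) :=
    alp_int e (fun x => x ^ 2 * δ) (by fun_prop)
  rw [← mul_sub, ← integral_sub i1 i2, abs_mul, abs_of_nonneg (by positivity)]
  have h4 : |∫ U, (alp U ^ 2 * G (alp U) - alp U ^ 2 * p.eval (alp U)) ∂(iid (e + 1) (e + 1))| ≤
      moment (e + 1) 2 * δ := by
    calc |∫ U, (alp U ^ 2 * G (alp U) - alp U ^ 2 * p.eval (alp U)) ∂(iid (e + 1) (e + 1))|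
        ≤ ∫ U, |alp U ^ 2 * G (alp U) - alp U ^ 2 * p.eval (alp U)| ∂(iid (e + 1) (e + 1)) :=
          abs_integral_le_integral_abs
      _ ≤ ∫ U, alp U ^ 2 * δ ∂(iid (e + 1) (e + 1)) := by
          apply integral_mono (i1.sub i2).abs i3
          intro U
          show |alp U ^ 2 * G (alp U) - alp U ^ 2 * p.eval (alp U)| ≤ alp U ^ 2 * δ
          rw [← mul_sub, abs_mul, abs_of_nonneg (sq_nonneg _)]
          apply mul_le_mul_of_nonneg_left _ (sq_nonneg _)
          rw [abs_sub_comm]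
          exact (hp _ ⟨alp_nonneg U, alp_le_one U⟩).le
      _ = moment (e + 1) 2 * δ := by rw [integral_mul_const, moment_alp]
  calc 2 ^ (e + 1) * ((e + 1 : ℕ) : ℝ) * |∫ U, (alp U ^ 2 * G (alp U) - alp U ^ 2 * p.eval (alp U)) ∂(iid (e + 1) (e + 1))|
      ≤ 2 ^ (e + 1) * ((e + 1 : ℕ) : ℝ) * (moment (e + 1) 2 * δ) := mul_le_mul_of_nonneg_left h4 (by positivity)
    _ = (2 ^ (e + 1) * ((e + 1 : ℕ) : ℝ) * moment (e + 1) 2) * δ := by ring
    _ ≤ (c2 + 1) * δ := mul_le_mul_of_nonneg_right h3.le hδ0.le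
    _ = ε := by rw [hδ]; field_simp

theorem limit_exists (f : Ioi (0 : ℝ) → ℝ) (hf : Continuous f) (hs : HasCompactSupport f) :
    ∃ l : ℝ, Tendsto (fun d : ℕ => ∫ x, f x ∂(muD d)) atTop (𝓝 l) := by
  obtain ⟨G, hG, h1, h2⟩ := factor f hf hs
  obtain ⟨l, hl⟩ := vague_exists G hG
  refine ⟨l, hl.congr' ?_⟩
  filter_upwards [eventually_ge_atTop 1] with d hd
  obtain ⟨e, rfl⟩ : ∃ e, d = e + 1 := ⟨d - 1, by omega⟩
  exact (int_muD e f (fun x => x ^ 2 * G x) (by fun_prop) h1 h2).symm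

theorem muD_fin (d : ℕ) : IsFiniteMeasure (muD (d + 1)) := by
  refine ⟨?_⟩
  unfold muD
  rw [Measure.smul_apply, smul_eq_mul]
  apply ENNReal.mul_lt_top
  · exact ENNReal.mul_lt_top (ENNReal.pow_lt_top ENNReal.ofNat_lt_top) (ENNReal.natCast_lt_top _)
  · rw [comap_subtype_coe_apply measurableSet_Ioi]
    exact measure_lt_top _ _

theorem int_C (d : ℕ) (f : Ioi (0 : ℝ) → ℝ) (hf : Continuous f) (hs : HasCompactSupport f) :
    Integrable f (muD (d + 1)) := by
  have := muD_fin d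
  exact hf.integrable_of_hasCompactSupport hs

open CompactlySupported in
/-- **main theorem**: vague convergence -/
theorem vague : ∃ μ : Measure (Ioi (0 : ℝ)), IsLocallyFiniteMeasure μ ∧ μ ≠ 0 ∧
    ∀ f : Ioi (0 : ℝ) → ℝ, Continuous f → HasCompactSupport f →
      Tendsto (fun d : ℕ => ∫ x, f x ∂(muD d)) atTop (𝓝 (∫ x, f x ∂μ)) := by
  have hlc : LocallyCompactSpace (Ioi (0 : ℝ)) := isOpen_Ioi.locallyCompactSpace
  have hL : ∀ f : C_c(Ioi (0 : ℝ), ℝ), ∃ l : ℝ, Tendsto (fun d : ℕ => ∫ x, f x ∂(muD d)) atTop (𝓝 l) :=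
    fun f => limit_exists f f.continuous f.hasCompactSupport
  choose L hL using hL
  have hint : ∀ (d : ℕ) (f : C_c(Ioi (0 : ℝ), ℝ)), 1 ≤ d → Integrable f (muD d) := by
    intro d f hd
    obtain ⟨e, rfl⟩ : ∃ e, d = e + 1 := ⟨d - 1, by omega⟩
    exact int_C e f f.continuous f.hasCompactSupport
  let Λ : C_c(Ioi (0 : ℝ), ℝ) →ₚ[ℝ] ℝ := PositiveLinearMap.mk₀
    { toFun := L
      map_add' := fun f g => by
        apply tendsto_nhds_unique (hL (f + g))
        apply ((hL f).add (hL g)).congr'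
        filter_upwards [eventually_ge_atTop 1] with d hd
        rw [← integral_add (hint d f hd) (hint d g hd)]
        rfl
      map_smul' := fun c f => by
        apply tendsto_nhds_unique (hL (c • f))
        apply ((hL f).const_mul c).congr
        intro d
        rw [← integral_const_mul]
        rfl }
    (fun f hf => by
      apply ge_of_tendsto' (hL f)
      intro d
      exact integral_nonneg hf)
  have hΛ : ∀ f : C_c(Ioi (0 : ℝ), ℝ), Λ f = L f := fun f => rfl
  refine ⟨RealRMK.rieszMeasure Λ, inferInstance, ?_, ?_⟩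
  · intro h0
    obtain ⟨c2, hc2, h2⟩ := main 2 le_rfl
    obtain ⟨c3, hc3, h3⟩ := main 3 (by norm_num)
    set δ : ℝ := min 1 (c3 / (2 * c2)) with hδ
    have hδ0 : 0 < δ := lt_min one_pos (by positivity)
    have hδ1 : δ ≤ 1 := min_le_left _ _
    have hδ2 : δ * c2 < c3 := by
      have : δ ≤ c3 / (2 * c2) := min_le_right _ _
      calc δ * c2 ≤ c3 / (2 * c2) * c2 := mul_le_mul_of_nonneg_right this hc2.le
        _ = c3 / 2 := by field_simp
        _ < c3 := by linarith
    -- the test function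
    let F : ℝ → ℝ := fun x => max 0 (min 1 (min (2 * x / δ - 1) (3 - x)))
    have hF : Continuous F := by fun_prop
    let f : Ioi (0 : ℝ) → ℝ := fun x => F x
    have hf : Continuous f := hF.comp continuous_subtype_val
    have hK : IsCompact (Subtype.val ⁻¹' (Icc (δ / 2) 3) : Set (Ioi (0 : ℝ))) := by
      rw [Topology.IsInducing.subtypeVal.isCompact_preimage_iff]
      · exact isCompact_Icc
      · intro x hx
        rw [Subtype.range_coe]
        exact lt_of_lt_of_le (by positivity) hx.1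
    have hs : HasCompactSupport f := by
      apply HasCompactSupport.of_support_subset_isCompact hK
      intro x hx
      by_contra hc
      apply hx
      show max 0 (min 1 (min (2 * (x : ℝ) / δ - 1) (3 - x))) = 0
      apply max_eq_left
      rw [mem_preimage, mem_Icc, not_and_or] at hc
      push Not at hc
      rcases hc with hc | hc
      · apply (min_le_right _ _).trans ((min_le_left _ _).trans _)
        rw [sub_nonpos, div_le_one hδ0]
        linarith
      · apply (min_le_right _ _).trans ((min_le_right _ _).trans _)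
        linarith
    have hF0 : ∀ x ≤ 0, F x = 0 := by
      intro x hx
      show max 0 (min 1 (min (2 * x / δ - 1) (3 - x))) = 0
      apply max_eq_left
      apply (min_le_right _ _).trans ((min_le_left _ _).trans _)
      rw [sub_nonpos, div_le_one hδ0]
      linarith
    let fc : C_c(Ioi (0 : ℝ), ℝ) := ⟨⟨f, hf⟩, hs⟩
    have h4 := RealRMK.integral_rieszMeasure Λ fc
    rw [h0, integral_zero_measure, hΛ] at h4
    have h5 := hL fc
    rw [← h4] at h5
    have h6 : Tendsto (fun d : ℕ => 2 ^ d * d * moment d 3 - δ * (2 ^ d * d * moment d 2)) atTop (𝓝 (c3 - δ * c2)) :=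
      h3.sub (h2.const_mul δ)
    have h7 : c3 - δ * c2 ≤ 0 := by
      apply le_of_tendsto_of_tendsto h6 h5
      filter_upwards [eventually_ge_atTop 1] with d hd
      obtain ⟨e, rfl⟩ : ∃ e, d = e + 1 := ⟨d - 1, by omega⟩
      have e1 : ∫ x, fc x ∂(muD (e + 1)) = _ := int_muD e f F hF (fun x => rfl) hF0
      rw [e1, moment_alp, moment_alp]
      have e2 : 2 ^ (e + 1) * ((e + 1 : ℕ) : ℝ) * ∫ U, alp U ^ 3 ∂(iid (e + 1) (e + 1)) -
          δ * (2 ^ (e + 1) * ((e + 1 : ℕ) : ℝ) * ∫ U, alp U ^ 2 ∂(iid (e + 1) (e + 1))) =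
          2 ^ (e + 1) * ((e + 1 : ℕ) : ℝ) * ∫ U, (alp U ^ 3 - δ * alp U ^ 2) ∂(iid (e + 1) (e + 1)) := by
        rw [integral_sub (alp_int e (fun x => x ^ 3) (by fun_prop))
          ((alp_int e (fun x => x ^ 2) (by fun_prop)).const_mul δ), integral_const_mul]
        ring
      rw [e2]
      apply mul_le_mul_of_nonneg_left _ (by positivity)
      apply integral_mono ((alp_int e (fun x => x ^ 3) (by fun_prop)).sub
          ((alp_int e (fun x => x ^ 2) (by fun_prop)).const_mul δ)) (alp_int e F hF)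
      intro U
      show alp U ^ 3 - δ * alp U ^ 2 ≤ F (alp U)
      have a0 := alp_nonneg U
      have a1 := alp_le_one U
      rcases lt_or_ge (alp U) δ with ha | ha
      · have : alp U ^ 3 - δ * alp U ^ 2 ≤ 0 := by
          have : alp U ^ 3 - δ * alp U ^ 2 = (alp U - δ) * alp U ^ 2 := by ring
          rw [this]
          exact mul_nonpos_of_nonpos_of_nonneg (by linarith) (sq_nonneg _)
        exact this.trans (le_max_left _ _)
      · have h8 : F (alp U) = 1 := by
          show max 0 (min 1 (min (2 * alp U / δ - 1) (3 - alp U))) = 1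
          have h9 : 1 ≤ 2 * alp U / δ - 1 := by
            have : 2 ≤ 2 * alp U / δ := by
              rw [le_div_iff₀ hδ0]
              linarith
            linarith
          rw [min_eq_left (le_min h9 (by linarith))]
          simp
        rw [h8]
        have : alp U ^ 3 ≤ 1 := pow_le_one₀ a0 a1
        nlinarith [sq_nonneg (alp U)]
    linarith
  · intro f hf hs
    have := RealRMK.integral_rieszMeasure Λ (⟨⟨f, hf⟩, hs⟩ : C_c(Ioi (0 : ℝ), ℝ))
    have h1 := hL (⟨⟨f, hf⟩, hs⟩ : C_c(Ioi (0 : ℝ), ℝ))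
    rw [hΛ] at this
    rw [← this] at h1
    exact h1

end Q298.Sol
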